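import Mathlib
import Pool.Agent.H789R5.RF.Rank

/-!
# Closed graphs of the generic rigidity matroid
-/

set_option autoImplicit false
set_option linter.unusedSectionVars false

namespace Pool.Agent.N423.DE

open Matrix Finset Pool.Agent.H283R2.DR Pool.Agent.H789R5

variable {V : Type} [Fintype V] {d : ℕ}

/-- the length of the pair is preserved by all motions -/
def Imp (G : SimpleGraph V) (p : V → Fin d → ℝ) (x y : V) : Prop :=
  ∀ q, IsMotion G p q → (p x - p y) ⬝ᵥ (q x - q y) = 0

omit [Fintype V] in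
theorem Imp.symm {G : SimpleGraph V} {p : V → Fin d → ℝ} {x y : V} (h : Imp G p x y) :
    Imp G p y x := by
  intro q hq
  rw [← neg_sub (p x), ← neg_sub (q x), neg_dotProduct_neg]
  exact h q hq

omit [Fintype V] in
theorem imp_of_adj {G : SimpleGraph V} {p : V → Fin d → ℝ} {x y : V} (h : G.Adj x y) :
    Imp G p x y := fun _ hq => hq x y h

omit [Fintype V] in
theorem Imp.mono {G G' : SimpleGraph V} {p : V → Fin d → ℝ} {x y : V} (h : Imp G p x y)
    (hG : G ≤ G') : Imp G' p x y := fun q hq => h q (fun u v huv => hq u v (hG huv))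

/-- all implied pairs are edges -/
def Closed (G : SimpleGraph V) (p : V → Fin d → ℝ) : Prop :=
  ∀ x y, x ≠ y → Imp G p x y → G.Adj x y

/-- the closure -/
def cl (G : SimpleGraph V) (p : V → Fin d → ℝ) : SimpleGraph V where
  Adj x y := x ≠ y ∧ Imp G p x y
  symm := ⟨fun _ _ h => ⟨h.1.symm, h.2.symm⟩⟩
  loopless := ⟨fun _ h => h.1 rfl⟩

omit [Fintype V] in
theorem le_cl (G : SimpleGraph V) (p : V → Fin d → ℝ) : G ≤ cl G p :=
  fun _ _ h => ⟨h.ne, imp_of_adj h⟩

theorem mot_cl (G : SimpleGraph V) (p : V → Fin d → ℝ) : Mot (cl G p) p = Mot G p := by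
  apply le_antisymm (mot_anti (le_cl G p) p)
  intro q hq
  rw [mem_mot] at *
  exact fun u v huv => huv.2 q hq

theorem mo_cl (G : SimpleGraph V) (p : V → Fin d → ℝ) : mo (cl G p) p = mo G p := by
  unfold mo; rw [mot_cl]

theorem closed_cl (G : SimpleGraph V) (p : V → Fin d → ℝ) : Closed (cl G p) p := by
  intro x y hxy h
  refine ⟨hxy, fun q hq => h q ?_⟩
  rw [← mem_mot, mot_cl, mem_mot]
  exact hq

theorem mo_lt_of_not_imp {G : SimpleGraph V} {p : V → Fin d → ℝ} {x y : V} (hxy : x ≠ y)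
    (h : ¬ Imp G p x y) : mo (G ⊔ SimpleGraph.edge x y) p < mo G p := by
  unfold Imp at h
  push Not at h
  obtain ⟨q, hq, hqne⟩ := h
  apply Submodule.finrank_lt_finrank_of_lt
  refine lt_of_le_of_ne (mot_anti le_sup_left p) fun heq => hqne ?_
  have h3 : q ∈ Mot (G ⊔ SimpleGraph.edge x y) p := by
    rw [heq, mem_mot]
    exact hq
  rw [mem_mot] at h3
  exact h3 x y (Or.inr (by rw [SimpleGraph.edge_adj]; exact ⟨Or.inl ⟨rfl, rfl⟩, hxy⟩))

/-- all pairs of `G'` are implied by `G` -/
theorem mo_le_of_imp {G G' : SimpleGraph V} {p : V → Fin d → ℝ}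
    (h : ∀ x y, G'.Adj x y → Imp G p x y) : mo G p ≤ mo G' p := by
  apply Submodule.finrank_mono
  intro q hq
  rw [mem_mot] at *
  exact fun u v huv => h u v huv q hq

/-- `G` and `G'` with equally many motions, `G ≤ G'`: the edges of `G'` are implied by `G` -/
theorem imp_of_mo_le {G G' : SimpleGraph V} {p : V → Fin d → ℝ} (hle : G ≤ G')
    (h : mo G p ≤ mo G' p) {x y : V} (hxy : G'.Adj x y) : Imp G p x y := by
  have h1 : Mot G' p = Mot G p := Submodule.eq_of_le_of_finrank_le (mot_anti hle p) h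
  intro q hq
  rw [← mem_mot, ← h1, mem_mot] at hq
  exact hq x y hxy

theorem mo_lower (F : SimpleGraph V) (p : V → Fin d → ℝ) :
    d * Fintype.card V ≤ mo F p + F.edgeSet.ncard := by
  have h1 := mo_le_add (G := (⊥ : SimpleGraph V)) (G' := F) p
  have h2 : mo (⊥ : SimpleGraph V) p = d * Fintype.card V := by
    have h2 : Mot (⊥ : SimpleGraph V) p = ⊤ := by
      rw [eq_top_iff]
      intro q _
      rw [mem_mot]
      intro u v huv
      simp at huv
    unfold mo
    rw [h2, finrank_top, finrank_all]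
  rw [h2] at h1
  refine h1.trans (Nat.add_le_add_left ?_ _)
  exact Set.ncard_le_ncard Set.sdiff_subset (Set.toFinite _)

/-! ### Cliques -/

/-- the members of the finite set are pairwise adjacent -/
def Cq (G : SimpleGraph V) (A : Finset V) : Prop := ∀ a ∈ A, ∀ b ∈ A, a ≠ b → G.Adj a b

omit [Fintype V] in
theorem Cq.mono {G G' : SimpleGraph V} {A : Finset V} (h : Cq G A) (hG : G ≤ G') : Cq G' A :=
  fun a ha b hb hab => hG (h a ha b hb hab)

omit [Fintype V] in
theorem Cq.subset {G : SimpleGraph V} {A B : Finset V} (h : Cq G A) (hB : B ⊆ A) : Cq G B :=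
  fun a ha b hb hab => h a (hB ha) b (hB hb) hab

theorem imp_common {p : V → Fin d → ℝ} (hp : MG p) {G : SimpleGraph V}
    {T : Finset V} (hT : d ≤ T.card) (hTc : Cq G T) {x y : V} (hxy : x ≠ y)
    (hx : ∀ t ∈ T, G.Adj x t) (hy : ∀ t ∈ T, G.Adj y t) : Imp G p x y := by
  classical
  obtain ⟨S, hST, hS⟩ := exists_subset_card_eq hT
  have hyS : y ∉ S := fun h => (hy y (hST h)).ne rfl
  have hxS : x ∉ S := fun h => (hx x (hST h)).ne rfl
  have hxS' : x ∉ insert y S := by
    rw [mem_insert]; push Not; exact ⟨hxy, hxS⟩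
  intro q hq
  refine circuit hp G (insert x (insert y S)) ?_ (mem_insert_self _ _)
    (mem_insert_of_mem (mem_insert_self _ _)) ?_ hq
  · rw [card_insert_of_notMem hxS', card_insert_of_notMem hyS, hS]
  · intro a ha b hb hab h1 h2
    rw [mem_insert, mem_insert] at ha hb
    rcases ha with rfl | rfl | ha <;> rcases hb with rfl | rfl | hb
    · exact absurd rfl hab
    · exact absurd ⟨rfl, rfl⟩ h1
    · exact hx b (hST hb)
    · exact absurd ⟨rfl, rfl⟩ h2
    · exact absurd rfl hab
    · exact hy b (hST hb)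
    · exact (hx a (hST ha)).symm
    · exact (hy a (hST ha)).symm
    · exact hTc a (hST ha) b (hST hb) hab

theorem closed_common {p : V → Fin d → ℝ} (hp : MG p) {G : SimpleGraph V} (hG : Closed G p)
    {T : Finset V} (hT : d ≤ T.card) (hTc : Cq G T) {x y : V} (hxy : x ≠ y)
    (hx : ∀ t ∈ T, G.Adj x t) (hy : ∀ t ∈ T, G.Adj y t) : G.Adj x y :=
  hG x y hxy (imp_common hp hT hTc hxy hx hy)

open Classical in
/-- the neighbours -/
noncomputable def nb (G : SimpleGraph V) (v : V) : Finset V := univ.filter fun z => G.Adj v z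

theorem mem_nb {G : SimpleGraph V} {v z : V} : z ∈ nb G v ↔ G.Adj v z := by
  unfold nb; simp

theorem not_mem_nb (G : SimpleGraph V) (v : V) : v ∉ nb G v := fun h => (mem_nb.1 h).ne rfl

theorem ncard_nb (G : SimpleGraph V) (v : V) : (G.neighborSet v).ncard = (nb G v).card := by
  rw [← Set.ncard_coe_finset]
  congr 1
  ext z
  rw [mem_coe, mem_nb, SimpleGraph.mem_neighborSet]

theorem card_del (G : SimpleGraph V) (v : V) :
    G.edgeSet.ncard = (G.deleteIncidenceSet v).edgeSet.ncard + (nb G v).card := by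
  rw [ncard_del G v, ncard_nb]

theorem mo_del_le (G : SimpleGraph V) (p : V → Fin d → ℝ) (v : V) :
    mo (G.deleteIncidenceSet v) p ≤ mo G p + (nb G v).card := by
  have h1 := mo_le_add (G := G.deleteIncidenceSet v) (G' := G) p
  have h2 := card_del G v
  have h3 : (G.edgeSet \ (G.deleteIncidenceSet v).edgeSet).ncard +
      (G.deleteIncidenceSet v).edgeSet.ncard = G.edgeSet.ncard :=
    Set.ncard_sdiff_add_ncard_of_subset
      (SimpleGraph.edgeSet_subset_edgeSet.2 (G.deleteIncidenceSet_le v)) (Set.toFinite _)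
  omega

omit [Fintype V] in
theorem del_mono {G G' : SimpleGraph V} (h : G ≤ G') (v : V) :
    G.deleteIncidenceSet v ≤ G'.deleteIncidenceSet v := by
  intro a b hab
  rw [SimpleGraph.deleteIncidenceSet_adj] at *
  exact ⟨h hab.1, hab.2⟩

theorem nb_del (G : SimpleGraph V) (v w : V) (hvw : v ≠ w) [DecidableEq V] :
    nb (G.deleteIncidenceSet w) v = (nb G v).erase w := by
  ext z
  rw [mem_nb, mem_erase, mem_nb, SimpleGraph.deleteIncidenceSet_adj]
  tauto

/-! ### Isolated vertices and deletion -/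

theorem p_ne {p : V → Fin d → ℝ} (hp : MG p) (hd : 1 ≤ d) {x y : V} (hxy : x ≠ y) :
    p x ≠ p y := by
  classical
  intro h
  have h1 := pos_finset hp (S := {x, y}) (by rw [card_pair hxy]; omega)
    (fun a => if a = x then 1 else -1) ?_ ?_ x (by simp)
  · simp at h1
  · rw [sum_pair hxy]
    simp [hxy.symm]
  · rw [sum_pair hxy]
    simp [hxy.symm, h]

theorem not_imp_isolated {p : V → Fin d → ℝ} (hp : MG p) (hd : 1 ≤ d) {G : SimpleGraph V} {v y : V}
    (hiso : ∀ u, ¬ G.Adj v u) (hvy : v ≠ y) : ¬ Imp G p v y := by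
  classical
  intro h
  have h1 := h (Pi.single v (p v - p y)) ?_
  · rw [Pi.single_eq_same, Pi.single_eq_of_ne hvy.symm, sub_zero, dotProduct_self_eq_zero,
      sub_eq_zero] at h1
    exact p_ne hp hd hvy h1
  · intro a b hab
    have ha : a ≠ v := by rintro rfl; exact hiso _ hab
    have hb : b ≠ v := by rintro rfl; exact hiso _ hab.symm
    rw [Pi.single_eq_of_ne ha, Pi.single_eq_of_ne hb]
    simp

theorem closed_del {p : V → Fin d → ℝ} (hp : MG p) (hd : 1 ≤ d) {G : SimpleGraph V}
    (hG : Closed G p) (v : V) : Closed (G.deleteIncidenceSet v) p := by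
  intro x y hxy h
  have hx : x ≠ v := by
    rintro rfl
    exact not_imp_isolated hp hd (del_isolated G x) hxy h
  have hy : y ≠ v := by
    rintro rfl
    exact not_imp_isolated hp hd (del_isolated G y) hxy.symm h.symm
  rw [SimpleGraph.deleteIncidenceSet_adj]
  exact ⟨hG x y hxy (h.mono (G.deleteIncidenceSet_le v)), hx, hy⟩

/-! ### Gains -/

/-- a vertex with at least `d + 1` neighbours, two of which are not linked without it -/
theorem gain1 {p : V → Fin d → ℝ} (hp : MG p) {F : SimpleGraph V} {v x y : V}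
    (hx : F.Adj v x) (hy : F.Adj v y) (hxy : x ≠ y) (hN : d + 1 ≤ (nb F v).card)
    (hd : 1 ≤ d) (h : ¬ Imp (F.deleteIncidenceSet v) p x y) :
    mo F p + (d + 1) ≤ mo (F.deleteIncidenceSet v) p := by
  classical
  have hsub : ({x, y} : Finset V) ⊆ nb F v := by
    intro z hz
    rw [mem_insert, mem_singleton] at hz
    rcases hz with rfl | rfl
    · exact mem_nb.2 hx
    · exact mem_nb.2 hy
  obtain ⟨N, h1, h2, h3⟩ := exists_subsuperset_card_eq hsub (n := d + 1)
    (by rw [card_pair hxy]; omega) hN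
  have h4 := ext1 hp F v N h3 (fun z hz => mem_nb.1 (h2 hz)) (h1 (by simp)) (h1 (by simp)) hxy
  have h5 := mo_lt_of_not_imp hxy h
  omega

/-- the case of a vertex with gain `d` in a closed graph -/
theorem caseB {p : V → Fin d → ℝ} (hp : MG p) (hd : 1 ≤ d) {G : SimpleGraph V} (hG : Closed G p)
    {v : V} (hN : d + 1 ≤ (nb G v).card)
    (hmo : mo (G.deleteIncidenceSet v) p ≤ mo G p + d) : Cq G (nb G v) := by
  intro x hx y hy hxy
  by_contra hadj
  have h1 : ¬ Imp (G.deleteIncidenceSet v) p x y := fun h =>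
    hadj (hG x y hxy (h.mono (G.deleteIncidenceSet_le v)))
  have := gain1 hp (mem_nb.1 hx) (mem_nb.1 hy) hxy hN hd h1
  omega

/-! ### Stars -/

/-- the star with centre `v` and leaves `T` -/
def star (v : V) (T : Finset V) : SimpleGraph V where
  Adj a b := a ≠ b ∧ ((a = v ∧ b ∈ T) ∨ (b = v ∧ a ∈ T))
  symm := ⟨fun _ _ h => ⟨h.1.symm, h.2.symm⟩⟩
  loopless := ⟨fun _ h => h.1 rfl⟩

theorem star_card (G : SimpleGraph V) (v : V) (T : Finset V) :
    ((G ⊔ star v T).edgeSet \ G.edgeSet).ncard ≤ T.card := by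
  classical
  have h : (G ⊔ star v T).edgeSet \ G.edgeSet ⊆ (T.image fun z => s(v, z) : Finset (Sym2 V)) := by
    intro e he
    induction e using Sym2.ind with
    | _ a b =>
      obtain ⟨h1, h2⟩ := he
      rw [SimpleGraph.mem_edgeSet, SimpleGraph.sup_adj] at h1
      rw [SimpleGraph.mem_edgeSet] at h2
      rw [mem_coe, mem_image]
      rcases h1 with h1 | ⟨_, ⟨rfl, hb⟩ | ⟨rfl, ha⟩⟩
      · exact absurd h1 h2
      · exact ⟨b, hb, rfl⟩
      · exact ⟨a, ha, Sym2.eq_swap⟩
  refine (Set.ncard_le_ncard h (Finset.finite_toSet _)).trans ?_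
  rw [Set.ncard_coe_finset]
  exact card_image_le

theorem mo_star_le (G : SimpleGraph V) (p : V → Fin d → ℝ) (v : V) (T : Finset V) :
    mo G p ≤ mo (G ⊔ star v T) p + T.card :=
  (mo_le_add p).trans (Nat.add_le_add_left (star_card G v T) _)

theorem card_star_le (G : SimpleGraph V) (v : V) (T : Finset V) :
    (G ⊔ star v T).edgeSet.ncard ≤ G.edgeSet.ncard + T.card := by
  have h1 : ((G ⊔ star v T).edgeSet \ G.edgeSet).ncard + G.edgeSet.ncard =
      (G ⊔ star v T).edgeSet.ncard :=
    Set.ncard_sdiff_add_ncard_of_subset (SimpleGraph.edgeSet_subset_edgeSet.2 le_sup_left)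
      (Set.toFinite _)
  have h2 := star_card G v T
  omega

/-- a vertex whose neighbours form a clique gains at most `d` -/
theorem gain_clique {p : V → Fin d → ℝ} (hp : MG p) {G : SimpleGraph V} {v : V}
    (hN : Cq G (nb G v)) : mo (G.deleteIncidenceSet v) p ≤ mo G p + d := by
  classical
  by_cases hc : (nb G v).card ≤ d
  · exact (mo_del_le G p v).trans (Nat.add_le_add_left hc _)
  push Not at hc
  obtain ⟨T, hTN, hT⟩ := exists_subset_card_eq hc.le
  set F := G.deleteIncidenceSet v ⊔ star v T with hF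
  have h1 := mo_star_le (G.deleteIncidenceSet v) p v T
  have h2 : mo F p ≤ mo G p := by
    apply mo_le_of_imp
    have key : ∀ z, G.Adj v z → Imp F p v z := by
      intro z hz
      by_cases hzT : z ∈ T
      · exact imp_of_adj (Or.inr ⟨hz.ne, Or.inl ⟨rfl, hzT⟩⟩)
      · refine imp_common hp (G := F) (T := T) hT.ge ?_ hz.ne ?_ ?_
        · intro a ha b hb hab
          refine Or.inl ?_
          rw [SimpleGraph.deleteIncidenceSet_adj]
          exact ⟨hN a (hTN ha) b (hTN hb) hab, (mem_nb.1 (hTN ha)).ne', (mem_nb.1 (hTN hb)).ne'⟩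
        · intro t ht
          exact Or.inr ⟨(mem_nb.1 (hTN ht)).ne, Or.inl ⟨rfl, ht⟩⟩
        · intro t ht
          refine Or.inl ?_
          rw [SimpleGraph.deleteIncidenceSet_adj]
          exact ⟨hN z (mem_nb.2 hz) t (hTN ht) (fun h => hzT (h ▸ ht)), hz.ne',
            (mem_nb.1 (hTN ht)).ne'⟩
    intro x y hxy
    by_cases hx : x = v
    · subst hx
      exact key y hxy
    · by_cases hy : y = v
      · subst hy
        exact (key x hxy.symm).symm
      · refine imp_of_adj (Or.inl ?_)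
        rw [SimpleGraph.deleteIncidenceSet_adj]
        exact ⟨hxy, hx, hy⟩
  rw [← hF] at h1
  omega

/-- in a closed graph: everything that is implied is an edge -/
theorem Closed.not_imp {p : V → Fin d → ℝ} {G F : SimpleGraph V} (hG : Closed G p) (hF : F ≤ G)
    {x y : V} (hxy : x ≠ y) (h : ¬ G.Adj x y) : ¬ Imp F p x y :=
  fun hi => h (hG x y hxy (hi.mono hF))

end Pool.Agent.N423.DE
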