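import Mathlib
import Pool.Agent.N423.DE.Closed

/-!
# Maximal cliques of closed graphs, and hubs
-/

set_option autoImplicit false
set_option linter.unusedSectionVars false

namespace Pool.Agent.N423.DE

open Matrix Finset Pool.Agent.H283R2.DR Pool.Agent.H789R5

variable {V : Type} [Fintype V] {d : ℕ}

open Classical in
/-- the clique generated by a clique -/
noncomputable def mx (G : SimpleGraph V) (A : Finset V) : Finset V :=
  univ.filter fun x => x ∈ A ∨ ∀ a ∈ A, G.Adj x a

theorem mem_mx {G : SimpleGraph V} {A : Finset V} {x : V} :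
    x ∈ mx G A ↔ x ∈ A ∨ ∀ a ∈ A, G.Adj x a := by
  unfold mx; simp

theorem subset_mx (G : SimpleGraph V) (A : Finset V) : A ⊆ mx G A := fun _ h => mem_mx.2 (Or.inl h)

section

variable {p : V → Fin d → ℝ} (hp : MG p) {G : SimpleGraph V} (hG : Closed G p) {A : Finset V}
  (hA : Cq G A) (hAd : d ≤ A.card)

include hp hG hA hAd

theorem cq_mx : Cq G (mx G A) := by
  intro x hx y hy hxy
  rw [mem_mx] at hx hy
  rcases hx with hx | hx
  · rcases hy with hy | hy
    · exact hA x hx y hy hxy
    · exact (hy x hx).symm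
  · rcases hy with hy | hy
    · exact hx y hy
    · exact closed_common hp hG hAd hA hxy hx hy

/-- a vertex with `d` neighbours in the clique belongs to it -/
theorem max_mx {x : V} {T : Finset V} (hT : T ⊆ mx G A) (hTd : d ≤ T.card)
    (hx : ∀ t ∈ T, G.Adj x t) : x ∈ mx G A := by
  by_cases hxA : x ∈ A
  · exact subset_mx G A hxA
  rw [mem_mx]
  right
  intro a ha
  have hxa : x ≠ a := fun h => hxA (h ▸ ha)
  by_cases haT : a ∈ T
  · exact hx a haT
  · refine closed_common hp hG hTd ((cq_mx hp hG hA hAd).subset hT) hxa hx ?_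
    intro t ht
    exact cq_mx hp hG hA hAd a (subset_mx G A ha) t (hT ht) (fun h => haT (h ▸ ht))

end

/-- A hub: a clique `R` with `d - 1` vertices such that each vertex of `U` outside is adjacent to
at least `d - 2` of them; the graph has all its edges inside `U`. -/
structure Hub (d : ℕ) (G : SimpleGraph V) (R U : Finset V) : Prop where
  card : R.card + 1 = d
  sub : R ⊆ U
  supp : ∀ a b, G.Adj a b → a ∈ U
  clq : Cq G R
  dom : ∀ v ∈ U, v ∉ R → ∃ S ⊆ R, d ≤ S.card + 2 ∧ ∀ r ∈ S, G.Adj v r

theorem Hub.supp' {G : SimpleGraph V} {R U : Finset V} (h : Hub d G R U) {a b : V}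
    (hab : G.Adj a b) : b ∈ U := h.supp b a hab.symm

theorem Hub.del {G : SimpleGraph V} {R U : Finset V} (h : Hub d G R U) [DecidableEq V] {w : V}
    (hw : w ∉ R) : Hub d (G.deleteIncidenceSet w) R (U.erase w) where
  card := h.card
  sub := fun r hr => mem_erase.2 ⟨fun hh => hw (hh ▸ hr), h.sub hr⟩
  supp := by
    intro a b hab
    rw [SimpleGraph.deleteIncidenceSet_adj] at hab
    exact mem_erase.2 ⟨hab.2.1, h.supp a b hab.1⟩
  clq := by
    intro a ha b hb hab
    rw [SimpleGraph.deleteIncidenceSet_adj]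
    exact ⟨h.clq a ha b hb hab, fun hh => hw (hh ▸ ha), fun hh => hw (hh ▸ hb)⟩
  dom := by
    intro v hv hvR
    obtain ⟨S, hS, hSc, hSa⟩ := h.dom v (mem_of_mem_erase hv) hvR
    refine ⟨S, hS, hSc, fun r hr => ?_⟩
    rw [SimpleGraph.deleteIncidenceSet_adj]
    exact ⟨hSa r hr, (mem_erase.1 hv).1, fun hh => hw (hh ▸ hS hr)⟩

/-- each generated clique misses at most one vertex of the hub -/
theorem hub_miss {p : V → Fin d → ℝ} (hp : MG p) {G : SimpleGraph V} (hG : Closed G p)
    {R U : Finset V} (hh : Hub d G R U) [DecidableEq V] {A : Finset V} (hA : Cq G A)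
    (hAc : A.card = d + 2) : (R \ mx G A).card ≤ 1 := by
  classical
  set Q := mx G A with hQ
  have hQc : Cq G Q := cq_mx hp hG hA (by omega)
  have hAQ : A ⊆ Q := subset_mx G A
  have hQcard : d + 2 ≤ Q.card := hAc ▸ card_le_card hAQ
  set J := R \ Q with hJ
  set X := Q \ R with hX
  have e1 : J.card + (R ∩ Q).card = R.card := by
    rw [hJ]; exact card_sdiff_add_card_inter R Q
  have e2 : X.card + (R ∩ Q).card = Q.card := by
    rw [hX, inter_comm]; exact card_sdiff_add_card_inter Q R
  have hcard := hh.card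
  -- few neighbours
  have h1 : ∀ r ∈ J, (X.filter fun x => G.Adj x r).card ≤ J.card := by
    intro r hr
    rw [hJ, mem_sdiff] at hr
    by_contra hc
    push Not at hc
    apply hr.2
    refine max_mx hp hG hA (by omega) (T := (X.filter fun x => G.Adj x r) ∪ (R ∩ Q)) ?_ ?_ ?_
    · intro t ht
      rw [mem_union, mem_filter, hX, mem_sdiff, mem_inter] at ht
      rcases ht with ht | ht
      · exact ht.1.1
      · exact ht.2
    · rw [card_union_of_disjoint]
      · omega
      · rw [disjoint_left]
        intro t ht ht'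
        rw [mem_filter, hX, mem_sdiff] at ht
        exact ht.1.2 (mem_inter.1 ht').1
    · intro t ht
      rw [mem_union, mem_filter, mem_inter] at ht
      rcases ht with ht | ht
      · exact ht.2.symm
      · exact hh.clq r hr.1 t ht.1 (fun h => hr.2 (h ▸ ht.2))
  -- each vertex misses at most one
  have h2 : ∀ x ∈ X, (J.filter fun r => ¬ G.Adj x r).card ≤ 1 := by
    intro x hx
    rw [hX, mem_sdiff] at hx
    have hxU : x ∈ U := by
      have : 1 < Q.card := by omega
      obtain ⟨b, hb, hbx⟩ := exists_mem_ne this x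
      exact hh.supp x b (hQc x hx.1 b hb hbx.symm)
    obtain ⟨S, hS, hSc, hSa⟩ := hh.dom x hxU hx.2
    have h3 : (J.filter fun r => ¬ G.Adj x r) ⊆ R \ S := by
      intro r hr
      rw [mem_filter, hJ, mem_sdiff] at hr
      exact mem_sdiff.2 ⟨hr.1.1, fun h => hr.2 (hSa r h)⟩
    have h4 := card_le_card h3
    rw [card_sdiff_of_subset hS] at h4
    omega
  have h3 : ∑ r ∈ J, (X.filter fun x => ¬ G.Adj x r).card =
      ∑ x ∈ X, (J.filter fun r => ¬ G.Adj x r).card := by
    simp only [card_filter]
    rw [sum_comm]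
  have h4 : ∑ x ∈ X, (J.filter fun r => ¬ G.Adj x r).card ≤ X.card := by
    calc _ ≤ ∑ x ∈ X, 1 := sum_le_sum h2
      _ = X.card := by simp
  have h5 : J.card * (X.card - J.card) ≤ ∑ r ∈ J, (X.filter fun x => ¬ G.Adj x r).card := by
    rw [← smul_eq_mul]
    refine card_nsmul_le_sum _ _ _ ?_
    intro r hr
    have h6 := h1 r hr
    have h7 := card_filter_add_card_filter_not (s := X) (fun x => G.Adj x r)
    omega
  have h6 : J.card + 3 ≤ X.card := by omega
  by_contra hc
  push Not at hc
  obtain ⟨t, ht⟩ := Nat.exists_eq_add_of_le h6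
  have h7 : J.card * (X.card - J.card) ≤ X.card := by omega
  rw [ht] at h7
  have h8 : J.card + 3 + t - J.card = 3 + t := by omega
  rw [h8] at h7
  nlinarith

end Pool.Agent.N423.DE
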