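import Mathlib
import Pool.Agent.N423.DE.Hub

/-!
# Proper sequences of cliques
-/

set_option autoImplicit false
set_option linter.unusedSectionVars false

namespace Pool.Agent.N423.DE

open Matrix Finset Pool.Agent.H283R2.DR Pool.Agent.H789R5

variable {V : Type} [Fintype V] {d : ℕ}

/-- the nullity of `G` is at most the length of a proper sequence of cliques of `G` -/
def HasSeq (G : SimpleGraph V) (p : V → Fin d → ℝ) : Prop :=
  ∃ L : List (Finset V), Proper (d + 2) L ∧ (∀ A ∈ L, Cq G A) ∧
    mo G p + G.edgeSet.ncard ≤ d * Fintype.card V + L.length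

omit [Fintype V] in
theorem cover_eq {G : SimpleGraph V} {L : List (Finset V)} (hL : ∀ A ∈ L, Cq G A) :
    cover G L = G := by
  ext x y
  constructor
  · rintro ⟨hne, h | ⟨A, hA, hx, hy⟩⟩
    · exact h
    · exact hL A hA x hx y hy hne
  · exact fun h => ⟨h.ne, Or.inl h⟩

omit [Fintype V] in
theorem proper_card {m : ℕ} : ∀ {L : List (Finset V)}, Proper m L → ∀ A ∈ L, A.card = m
  | [], _, A, h => by simp at h
  | B :: L, ⟨h1, h2, _⟩, A, h => by
    rcases List.mem_cons.1 h with rfl | h
    · exact h2
    · exact proper_card h1 A h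

omit [Fintype V] in
/-- appending the cliques that attach `v` to a clique -/
theorem seq_add [DecidableEq V] {G : SimpleGraph V} {L' : List (Finset V)} (h' : Proper (d + 2) L')
    (hc' : ∀ A ∈ L', Cq G A) {v : V} (hv : ∀ A ∈ L', v ∉ A) {K : Finset V} (hK : Cq G K)
    (hvK : ∀ z ∈ K, G.Adj v z) :
    ∃ L, Proper (d + 2) L ∧ (∀ A ∈ L, Cq G A) ∧ L.length = L'.length + (K.card - d) := by
  by_cases hd : K.card ≤ d
  · exact ⟨L', h', hc', by omega⟩
  push Not at hd
  obtain ⟨T, hTK, hT⟩ := exists_subset_card_eq hd.le
  have hvT : v ∉ T := fun h => (hvK v (hTK h)).ne rfl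
  have hvKK : v ∉ K := fun h => (hvK v h).ne rfl
  have key : ∀ W : Finset V, W ⊆ K \ T → ∃ L, Proper (d + 2) L ∧ (∀ A ∈ L, Cq G A) ∧
      L.length = L'.length + W.card ∧ ∀ A ∈ L, v ∈ A → A ⊆ insert v (W ∪ T) := by
    intro W
    induction W using Finset.induction with
    | empty => exact fun _ => ⟨L', h', hc', by simp, fun A hA h => absurd h (hv A hA)⟩
    | insert z W hz ih =>
      intro hW
      obtain ⟨L, h1, h2, h3, h4⟩ := ih ((subset_insert _ _).trans hW)
      have hzK := mem_sdiff.1 (hW (mem_insert_self _ _))
      have hvz : v ≠ z := fun h => hvKK (h ▸ hzK.1)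
      have hvzT : v ∉ insert z T := by
        rw [mem_insert]; push Not; exact ⟨hvz, hvT⟩
      refine ⟨insert v (insert z T) :: L, ⟨h1, ?_, v, mem_insert_self _ _, z,
        mem_insert_of_mem (mem_insert_self _ _), hvz, ?_⟩, ?_, ?_, ?_⟩
      · rw [card_insert_of_notMem hvzT, card_insert_of_notMem hzK.2, hT]
      · rintro B hB ⟨hvB, hzB⟩
        have := h4 B hB hvB hzB
        rw [mem_insert, mem_union] at this
        rcases this with h | h | h
        · exact hvz h.symm
        · exact hz h
        · exact hzK.2 h
      · intro A hA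
        rcases List.mem_cons.1 hA with rfl | hA
        · intro a ha b hb hab
          have hmem : ∀ c ∈ insert z T, c ∈ K := by
            intro c hc
            rcases mem_insert.1 hc with rfl | hc
            · exact hzK.1
            · exact hTK hc
          rcases mem_insert.1 ha with ha' | ha'
          · rcases mem_insert.1 hb with hb' | hb'
            · exact absurd (ha'.trans hb'.symm) hab
            · rw [ha']; exact hvK b (hmem b hb')
          · rcases mem_insert.1 hb with hb' | hb'
            · rw [hb']; exact (hvK a (hmem a ha')).symm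
            · exact hK a (hmem a ha') b (hmem b hb') hab
        · exact h2 A hA
      · rw [List.length_cons, h3, card_insert_of_notMem hz]
        omega
      · intro A hA hvA
        rcases List.mem_cons.1 hA with rfl | hA
        · intro a ha
          simp only [mem_insert, mem_union] at ha ⊢
          tauto
        · intro a ha
          have := h4 A hA hvA ha
          simp only [mem_insert, mem_union] at this ⊢
          tauto
  obtain ⟨L, h1, h2, h3, -⟩ := key (K \ T) (Subset.refl _)
  refine ⟨L, h1, h2, ?_⟩
  rw [h3, card_sdiff_of_subset hTK, hT]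

/-- from `G - v` to `G` -/
theorem step {p : V → Fin d → ℝ} {G : SimpleGraph V} {v : V}
    (hs : HasSeq (G.deleteIncidenceSet v) p) {K : Finset V} (hKN : K ⊆ nb G v) (hK : Cq G K)
    (hmo : mo G p + (nb G v).card ≤ mo (G.deleteIncidenceSet v) p + (K.card - d)) :
    HasSeq G p := by
  classical
  obtain ⟨L', h1, h2, h3⟩ := hs
  have hv : ∀ A ∈ L', v ∉ A := by
    intro A hA hvA
    have hc := proper_card h1 A hA
    obtain ⟨b, hb, hbv⟩ := exists_mem_ne (by omega : 1 < A.card) v
    exact del_isolated G v b (h2 A hA v hvA b hb hbv.symm)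
  obtain ⟨L, h4, h5, h6⟩ := seq_add h1 (fun A hA => (h2 A hA).mono (G.deleteIncidenceSet_le v)) hv
    hK (fun z hz => mem_nb.1 (hKN hz))
  refine ⟨L, h4, h5, ?_⟩
  have := card_del G v
  omega

/-! ### Replacing a vertex in some of the sets -/

open Classical in
/-- replace `v` by `w` in the sets with the property `c` -/
noncomputable def repl (v w : V) (c : Finset V → Prop) (A : Finset V) : Finset V :=
  if c A then insert w (A.erase v) else A

omit [Fintype V] in
theorem repl_pos [DecidableEq V] {v w : V} {c : Finset V → Prop} {A : Finset V} (h : c A) :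
    repl v w c A = insert w (A.erase v) := by
  ext a
  unfold repl
  rw [if_pos h]
  simp only [mem_insert, mem_erase]

omit [Fintype V] in
theorem mem_repl {v w : V} {c : Finset V → Prop} {B : Finset V} {x : V} (hxw : x ≠ w)
    (hx : x ∈ repl v w c B) : x ∈ B := by
  classical
  unfold repl at hx
  split_ifs at hx with h1
  · rw [mem_insert, mem_erase] at hx
    rcases hx with hx | hx
    · exact absurd hx hxw
    · exact hx.2
  · exact hx

omit [Fintype V] in
theorem cond_of_mem_repl {v w : V} {c : Finset V → Prop} {B : Finset V} (hwB : w ∉ B)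
    (hx : w ∈ repl v w c B) : c B := by
  classical
  by_contra h1
  unfold repl at hx
  rw [if_neg h1] at hx
  exact hwB hx

omit [Fintype V] in
theorem repl_card {v w : V} {c : Finset V → Prop} (hc : ∀ A, c A → v ∈ A) {A : Finset V}
    (hwA : w ∉ A) : (repl v w c A).card = A.card := by
  classical
  unfold repl
  split_ifs with h1
  · have hv := hc A h1
    have hw : w ∉ A.erase v := fun h => hwA (mem_of_mem_erase h)
    rw [card_insert_of_notMem hw, card_erase_of_mem hv]
    have : 0 < A.card := card_pos.2 ⟨v, hv⟩
    omega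
  · rfl

omit [Fintype V] in
theorem proper_repl {m : ℕ} {v w : V} {c : Finset V → Prop} (hc : ∀ A, c A → v ∈ A) :
    ∀ L : List (Finset V), Proper m L → (∀ A ∈ L, w ∉ A) → Proper m (L.map (repl v w c)) := by
  classical
  intro L
  induction L with
  | nil => exact fun _ _ => trivial
  | cons A L ih =>
    rintro ⟨h1, h2, x, hx, y, hy, hxy, hnew⟩ hw
    have hwA : w ∉ A := hw A (by simp)
    have hwL : ∀ B ∈ L, w ∉ B := fun B hB => hw B (List.mem_cons_of_mem _ hB)
    rw [List.map_cons]
    refine ⟨ih h1 hwL, (repl_card hc hwA).trans h2, ?_⟩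
    have hxw : x ≠ w := fun h => hwA (h ▸ hx)
    have hyw : y ≠ w := fun h => hwA (h ▸ hy)
    by_cases hcA : c A
    · have hmem : ∀ z ∈ A, (if z = v then w else z) ∈ repl v w c A := by
        intro z hz
        unfold repl
        rw [if_pos hcA]
        split_ifs with h
        · exact mem_insert_self _ _
        · exact mem_insert_of_mem (mem_erase.2 ⟨h, hz⟩)
      have hback : ∀ z ∈ A, ∀ B ∈ L, (if z = v then w else z) ∈ repl v w c B → z ∈ B := by
        intro z hz B hB hzB
        split_ifs at hzB with h
        · rw [h]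
          exact hc B (cond_of_mem_repl (hwL B hB) hzB)
        · exact mem_repl (fun h2 : z = w => hwA (h2 ▸ hz)) hzB
      refine ⟨_, hmem x hx, _, hmem y hy, ?_, ?_⟩
      · split_ifs with h3 h4 h4
        · exact absurd (h3.trans h4.symm) hxy
        · exact hyw.symm
        · exact hxw
        · exact hxy
      · intro B' hB' hh
        obtain ⟨B, hB, rfl⟩ := List.mem_map.1 hB'
        exact hnew B hB ⟨hback x hx B hB hh.1, hback y hy B hB hh.2⟩
    · have hA : repl v w c A = A := by unfold repl; rw [if_neg hcA]
      rw [hA]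
      refine ⟨x, hx, y, hy, hxy, ?_⟩
      intro B' hB' hh
      obtain ⟨B, hB, rfl⟩ := List.mem_map.1 hB'
      exact hnew B hB ⟨mem_repl hxw hh.1, mem_repl hyw hh.2⟩

end Pool.Agent.N423.DE
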