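import Mathlib
import Pool.Agent.N423.DE.Seq

/-!
# A vertex with gain `d + 1` in a closed graph with a hub
-/

set_option autoImplicit false
set_option linter.unusedSectionVars false

namespace Pool.Agent.N423.DE

open Matrix Finset Pool.Agent.H283R2.DR Pool.Agent.H789R5

variable {V : Type} [Fintype V] {d : ℕ}

omit [Fintype V] in
theorem del_del_edge (G : SimpleGraph V) (v y : V) :
    (G.deleteEdges {s(v, y)}).deleteIncidenceSet v = G.deleteIncidenceSet v := by
  ext a b
  rw [SimpleGraph.deleteIncidenceSet_adj, SimpleGraph.deleteIncidenceSet_adj,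
    SimpleGraph.deleteEdges_adj, Set.mem_singleton_iff, Sym2.eq_iff]
  constructor
  · rintro ⟨⟨h, -⟩, h1, h2⟩
    exact ⟨h, h1, h2⟩
  · rintro ⟨h, h1, h2⟩
    refine ⟨⟨h, ?_⟩, h1, h2⟩
    rintro (⟨h3, -⟩ | ⟨-, h3⟩)
    · exact h1 h3
    · exact h2 h3

theorem lemC {p : V → Fin d → ℝ} (hp : MG p) (hd : 1 ≤ d) [DecidableEq V]
    {G : SimpleGraph V} (hG : Closed G p)
    {R U : Finset V} (hh : Hub d G R U) (hs : HasSeq G p) {v w : V} (hvR : v ∉ R)
    (hw : w ∉ U) (hvw : v ≠ w) (hN : d + 2 ≤ (nb G v).card)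
    (h1 : mo G p + (d + 1) = mo (G.deleteIncidenceSet v) p) :
    ∃ y ∈ nb G v, Cq G ((nb G v).erase y) := by
  obtain ⟨L, hL, hLc, hLl⟩ := hs
  have hLd : ∀ A ∈ L, A.card = d + 2 := proper_card hL
  by_cases hcol : ∃ y ∈ nb G v, mo G p + 1 ≤ mo (G.deleteEdges {s(v, y)}) p
  · -- some edge is a coloop
    obtain ⟨y, hy, hmo⟩ := hcol
    refine ⟨y, hy, ?_⟩
    intro a ha b hb hab
    by_contra hadj
    set F := G.deleteEdges {s(v, y)} with hF
    have hFG : F ≤ G := SimpleGraph.deleteEdges_le _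
    have hFd : F.deleteIncidenceSet v = G.deleteIncidenceSet v := del_del_edge G v y
    have hFadj : ∀ z ∈ (nb G v).erase y, F.Adj v z := by
      intro z hz
      rw [mem_erase, mem_nb] at hz
      rw [hF, SimpleGraph.deleteEdges_adj, Set.mem_singleton_iff, Sym2.eq_iff]
      refine ⟨hz.2, ?_⟩
      rintro (⟨-, h⟩ | ⟨h, h'⟩)
      · exact hz.1 h
      · exact hz.2.ne h'.symm
    have hcard : d + 1 ≤ (nb F v).card := by
      have h2 : (nb G v).erase y ⊆ nb F v := fun z hz => mem_nb.2 (hFadj z hz)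
      have h3 := card_le_card h2
      rw [card_erase_of_mem hy] at h3
      omega
    have h2 := gain1 hp (hFadj a ha) (hFadj b hb) hab hcard hd
      (hG.not_imp ((F.deleteIncidenceSet_le v).trans hFG) hab hadj)
    rw [hFd] at h2
    omega
  exfalso
  push Not at hcol
  -- each edge at `v` is in a set of the list
  have hcov : ∀ y ∈ nb G v, ∃ A ∈ L, v ∈ A ∧ y ∈ A := by
    intro y hy
    by_contra hno
    push Not at hno
    have h2 := hcol y hy
    set F := G.deleteEdges {s(v, y)} with hF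
    have hLF : ∀ A ∈ L, Cq F A := by
      intro A hA a ha b hb hab
      rw [hF, SimpleGraph.deleteEdges_adj, Set.mem_singleton_iff, Sym2.eq_iff]
      refine ⟨hLc A hA a ha b hb hab, ?_⟩
      rintro (⟨rfl, rfl⟩ | ⟨rfl, rfl⟩)
      · exact hno A hA ha hb
      · exact hno A hA hb ha
    have h3 := upper hp F hL
    rw [cover_eq hLF] at h3
    have hcard : F.edgeSet.ncard + 1 = G.edgeSet.ncard := by
      rw [hF, SimpleGraph.edgeSet_deleteEdges]
      exact Set.ncard_sdiff_singleton_add_one (show s(v, y) ∈ G.edgeSet from mem_nb.1 hy)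
        (Set.toFinite _)
    omega
  obtain ⟨y0, hy0⟩ : (nb G v).Nonempty := card_pos.1 (by omega)
  obtain ⟨A, hAL, hvA, hy0A⟩ := hcov y0 hy0
  have hAc := hLc A hAL
  have hAd := hLd A hAL
  set Q := mx G A with hQ
  have hQc : Cq G Q := cq_mx hp hG hAc (by omega)
  have hAQ : A ⊆ Q := subset_mx G A
  have hvQ : v ∈ Q := hAQ hvA
  set M := Q.erase v with hM
  have hMN : M ⊆ nb G v := by
    intro z hz
    rw [hM, mem_erase] at hz
    exact mem_nb.2 (hQc v hvQ z hz.2 hz.1.symm)
  have hMcard : d + 1 ≤ M.card := by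
    have := card_le_card hAQ
    rw [hM, card_erase_of_mem hvQ]
    omega
  classical
  set c : Finset V → Prop := fun B => v ∈ B ∧ ¬ B ⊆ Q with hcdef
  set N2 := (nb G v).filter (fun x => ∃ B ∈ L, c B ∧ x ∈ B) with hN2
  have hN2N : N2 ⊆ nb G v := filter_subset _ _
  have hunion : nb G v = M ∪ N2 := by
    apply subset_antisymm
    · intro y hy
      obtain ⟨B, hB, hvB, hyB⟩ := hcov y hy
      rw [mem_union]
      by_cases hBQ : B ⊆ Q
      · left
        exact mem_erase.2 ⟨(mem_nb.1 hy).ne', hBQ hyB⟩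
      · right
        exact mem_filter.2 ⟨hy, B, hB, ⟨hvB, hBQ⟩, hyB⟩
    · exact union_subset hMN hN2N
  have hmax : ∀ x (T : Finset V), T ⊆ Q → d ≤ T.card → (∀ t ∈ T, G.Adj x t) → x ∈ Q :=
    fun x T h2 h3 h4 => max_mx hp hG hAc (by omega) h2 h3 h4
  by_cases hN2e : N2 = ∅
  · rw [hN2e, union_empty] at hunion
    have := gain_clique hp (G := G) (v := v) (by
      rw [hunion]; exact hQc.subset (erase_subset _ _))
    omega
  obtain ⟨x0, hx0⟩ := nonempty_iff_ne_empty.2 hN2e
  obtain ⟨-, B0, hB0L, hB0, hx0B⟩ := mem_filter.1 hx0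
  have hB0N : B0.erase v ⊆ N2 := by
    intro z hz
    rw [mem_erase] at hz
    exact mem_filter.2 ⟨mem_nb.2 (hLc B0 hB0L v hB0.1 z hz.2 hz.1.symm), B0, hB0L, hB0, hz.2⟩
  have hN2card : d + 1 ≤ N2.card := by
    have h2 := card_le_card hB0N
    rw [card_erase_of_mem hB0.1, hLd B0 hB0L] at h2
    omega
  -- no edges at `w`
  have hwG : ∀ a, ¬ G.Adj w a := fun a h => hw (hh.supp w a h)
  have hwL : ∀ B ∈ L, w ∉ B := by
    intro B hB hwB
    obtain ⟨b, hb, hbw⟩ := exists_mem_ne (by have := hLd B hB; omega : 1 < B.card) w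
    exact hwG b (hLc B hB w hwB b hb hbw.symm)
  have hwN2 : w ∉ N2 := fun h => hwG v (mem_nb.1 (hN2N h)).symm
  have hwM : w ∉ M := fun h => hwG v (mem_nb.1 (hMN h)).symm
  -- the split graph
  set H1 := G.deleteIncidenceSet v ⊔ star v M with hH1
  set H2 := H1 ⊔ star w N2 with hH2
  have hH1G : H1 ≤ G := by
    refine sup_le (G.deleteIncidenceSet_le v) ?_
    rintro a b ⟨-, ⟨rfl, hb⟩ | ⟨rfl, ha⟩⟩
    · exact mem_nb.1 (hMN hb)
    · exact (mem_nb.1 (hMN ha)).symm
  have hH1d : H1.deleteIncidenceSet v = G.deleteIncidenceSet v := by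
    apply le_antisymm
    · exact del_mono hH1G v
    · intro a b hab
      have h2 := (SimpleGraph.deleteIncidenceSet_adj.1 hab)
      rw [SimpleGraph.deleteIncidenceSet_adj]
      exact ⟨Or.inl hab, h2.2⟩
  have hH2d : H2.deleteIncidenceSet w = H1 := by
    ext a b
    rw [SimpleGraph.deleteIncidenceSet_adj]
    constructor
    · rintro ⟨h | ⟨-, ⟨h, -⟩ | ⟨h, -⟩⟩, h3, h4⟩
      · exact h
      · exact absurd h h3
      · exact absurd h h4
    · intro h
      refine ⟨Or.inl h, ?_, ?_⟩
      · rintro rfl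
        exact hwG _ (hH1G h)
      · rintro rfl
        exact hwG _ (hH1G h.symm)
  have hH2N : ∀ z ∈ N2, H2.Adj w z := fun z hz =>
    Or.inr ⟨fun h => hwN2 (h ▸ hz), Or.inl ⟨rfl, hz⟩⟩
  have hN2sub : N2 ⊆ nb H2 w := fun z hz => mem_nb.2 (hH2N z hz)
  have hgain1 : mo H1 p + d ≤ mo (G.deleteIncidenceSet v) p := by
    obtain ⟨T, hT, hTc⟩ := exists_subset_card_eq (s := M) (n := d) (by omega)
    have h2 := ext0 hp H1 v T hTc.le (fun z hz => Or.inr ⟨fun h => by
      have := hT hz
      rw [← h, hM] at this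
      simp at this, Or.inl ⟨rfl, hT hz⟩⟩)
    rw [hH1d] at h2
    omega
  -- the transformed list
  have hprop := proper_repl (v := v) (w := w) (c := c) (fun B hB => hB.1) L hL hwL
  have hcl : ∀ B ∈ L.map (repl v w c), Cq H2 B := by
    intro B' hB'
    obtain ⟨B, hB, rfl⟩ := List.mem_map.1 hB'
    have hBG : ∀ a ∈ B, ∀ b ∈ B, a ≠ b → a ≠ v → b ≠ v → H2.Adj a b := by
      intro a ha b hb hab hav hbv
      refine Or.inl (Or.inl ?_)
      rw [SimpleGraph.deleteIncidenceSet_adj]
      exact ⟨hLc B hB a ha b hb hab, hav, hbv⟩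
    by_cases hcB : c B
    · have hrw : repl v w c B = insert w (B.erase v) := repl_pos hcB
      rw [hrw]
      have hN : ∀ z ∈ B.erase v, z ∈ N2 := by
        intro z hz
        rw [mem_erase] at hz
        exact mem_filter.2 ⟨mem_nb.2 (hLc B hB v hcB.1 z hz.2 hz.1.symm), B, hB, hcB, hz.2⟩
      intro a ha b hb hab
      rcases mem_insert.1 ha with ha' | ha'
      · rcases mem_insert.1 hb with hb' | hb'
        · exact absurd (ha'.trans hb'.symm) hab
        · rw [ha']; exact hH2N b (hN b hb')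
      · rcases mem_insert.1 hb with hb' | hb'
        · rw [hb']; exact (hH2N a (hN a ha')).symm
        · rw [mem_erase] at ha' hb'
          exact hBG a ha'.2 b hb'.2 hab ha'.1 hb'.1
    · have hrw : repl v w c B = B := by unfold repl; rw [if_neg hcB]
      rw [hrw]
      intro a ha b hb hab
      have hBQ : v ∈ B → B ⊆ Q := by
        intro h2
        by_contra h3
        exact hcB ⟨h2, h3⟩
      by_cases hav : a = v
      · subst hav
        exact Or.inl (Or.inr ⟨hab, Or.inl ⟨rfl, mem_erase.2 ⟨hab.symm, hBQ ha hb⟩⟩⟩)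
      · by_cases hbv : b = v
        · subst hbv
          exact Or.inl (Or.inr ⟨hab, Or.inr ⟨rfl, mem_erase.2 ⟨hav, hBQ hb ha⟩⟩⟩)
        · exact hBG a ha b hb hab hav hbv
  have hup := upper hp H2 hprop
  rw [cover_eq hcl, List.length_map] at hup
  have hc1 := card_star_le (G.deleteIncidenceSet v) v M
  have hc2 := card_star_le H1 w N2
  rw [← hH1] at hc1
  rw [← hH2] at hc2
  have hc3 := card_del G v
  have hc4 : (nb G v).card + (M ∩ N2).card = M.card + N2.card := by
    rw [hunion]; exact card_union_add_card_inter M N2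
  -- a vertex outside `Q`
  obtain ⟨b, hbB, hbQ⟩ := not_subset.1 hB0.2
  have hbv : b ≠ v := fun h => hbQ (h ▸ hvQ)
  have hbN2 : b ∈ N2 := hB0N (mem_erase.2 ⟨hbv, hbB⟩)
  by_cases hN2c : Cq G N2
  · have hgain2 : mo H2 p + d ≤ mo H1 p := by
      obtain ⟨T, hT, hTc⟩ := exists_subset_card_eq (s := N2) (n := d) (by omega)
      have h2 := ext0 hp H2 w T hTc.le (fun z hz => hH2N z (hT hz))
      rw [hH2d] at h2
      omega
    have hcap : d ≤ (M ∩ N2).card + 1 := by omega
    apply hbQ
    refine hmax b (insert v (M ∩ N2)) ?_ ?_ ?_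
    · intro t ht
      rcases mem_insert.1 ht with rfl | ht
      · exact hvQ
      · exact mem_of_mem_erase (mem_inter.1 ht).1
    · rw [card_insert_of_notMem]
      · exact hcap
      · intro h
        have := (mem_inter.1 h).1
        rw [hM] at this
        simp at this
    · intro t ht
      rcases mem_insert.1 ht with rfl | ht
      · exact (mem_nb.1 (hN2N hbN2)).symm
      · refine hN2c b hbN2 t (mem_inter.1 ht).2 ?_
        rintro rfl
        exact hbQ (mem_of_mem_erase (mem_inter.1 ht).1)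
  · unfold Cq at hN2c
    push Not at hN2c
    obtain ⟨a, ha, a', ha', haa, hnadj⟩ := hN2c
    have hgain2 : mo H2 p + (d + 1) ≤ mo H1 p := by
      have h2 := gain1 hp (F := H2) (v := w) (hH2N a ha) (hH2N a' ha') haa
        (hN2card.trans (card_le_card hN2sub)) hd (by
          rw [hH2d]
          exact hG.not_imp hH1G haa hnadj)
      rw [hH2d] at h2
      exact h2
    have hcap : d ≤ (M ∩ N2).card := by omega
    -- a common neighbour outside the hub
    have hcardR := hh.card
    obtain ⟨x, hx, hxR⟩ : ∃ x ∈ M ∩ N2, x ∉ R := by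
      by_contra hno
      push Not at hno
      have := card_le_card (show M ∩ N2 ⊆ R from fun z hz => hno z hz)
      omega
    rw [mem_inter] at hx
    obtain ⟨hxM, hxN2⟩ := hx
    have hxv : x ≠ v := (mem_erase.1 hxM).1
    have hxQ : x ∈ Q := (mem_erase.1 hxM).2
    obtain ⟨-, B, hBL, hB, hxB⟩ := mem_filter.1 hxN2
    obtain ⟨b, hbB, hbQ⟩ := not_subset.1 hB.2
    set Q' := mx G B with hQ'
    have hQ'c : Cq G Q' := cq_mx hp hG (hLc B hBL) (by have := hLd B hBL; omega)
    have hBQ' : B ⊆ Q' := subset_mx G B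
    have hm1 : (R \ Q).card ≤ 1 := hub_miss hp hG hh hAc hAd
    have hm2 : (R \ Q').card ≤ 1 := hub_miss hp hG hh (hLc B hBL) (hLd B hBL)
    have hint : (Q ∩ Q').card + 1 ≤ d := by
      by_contra hc5
      push Not at hc5
      apply hbQ
      refine hmax b (Q ∩ Q') inter_subset_left (by omega) ?_
      intro t ht
      rw [mem_inter] at ht
      exact hQ'c b (hBQ' hbB) t ht.2 (fun h => hbQ (h ▸ ht.1))
    have hvxsub : insert v (insert x (R ∩ (Q ∩ Q'))) ⊆ Q ∩ Q' := by
      intro t ht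
      rw [mem_insert, mem_insert] at ht
      rcases ht with rfl | rfl | ht
      · exact mem_inter.2 ⟨hvQ, hBQ' hB.1⟩
      · exact mem_inter.2 ⟨hxQ, hBQ' hxB⟩
      · exact (mem_inter.1 ht).2
    have hcard2 := card_le_card hvxsub
    have hx1 : x ∉ R ∩ (Q ∩ Q') := fun h => hxR (mem_inter.1 h).1
    have hv1 : v ∉ insert x (R ∩ (Q ∩ Q')) := by
      rw [mem_insert]
      push Not
      exact ⟨hxv.symm, fun h => hvR (mem_inter.1 h).1⟩
    rw [card_insert_of_notMem hv1, card_insert_of_notMem hx1] at hcard2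
    -- there is a hub vertex outside `Q` in `Q'`
    have hex : ∃ r ∈ R, r ∉ Q ∧ r ∈ Q' := by
      by_contra hno
      push Not at hno
      have hsub : R ∩ Q' ⊆ R ∩ (Q ∩ Q') := by
        intro r hr
        rw [mem_inter] at hr
        refine mem_inter.2 ⟨hr.1, mem_inter.2 ⟨?_, hr.2⟩⟩
        by_contra hrQ
        exact hno r hr.1 hrQ hr.2
      have h5 := card_le_card hsub
      have h6 := card_sdiff_add_card_inter R Q'
      omega
    obtain ⟨r, hrR, hrQ, hrQ'⟩ := hex
    apply hrQ
    have hRQ : R.erase r ⊆ Q := by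
      intro s hs
      rw [mem_erase] at hs
      by_contra hsQ
      have : ({s, r} : Finset V) ⊆ R \ Q := by
        intro t ht
        rw [mem_insert, mem_singleton] at ht
        rcases ht with rfl | rfl
        · exact mem_sdiff.2 ⟨hs.2, hsQ⟩
        · exact mem_sdiff.2 ⟨hrR, hrQ⟩
      have h5 := card_le_card this
      rw [card_pair hs.1] at h5
      omega
    refine hmax r (insert v (insert x (R.erase r))) ?_ ?_ ?_
    · intro t ht
      rw [mem_insert, mem_insert] at ht
      rcases ht with rfl | rfl | ht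
      · exact hvQ
      · exact hxQ
      · exact hRQ ht
    · rw [card_insert_of_notMem, card_insert_of_notMem, card_erase_of_mem hrR]
      · have : 0 < R.card := card_pos.2 ⟨r, hrR⟩
        omega
      · exact fun h => hxR (mem_of_mem_erase h)
      · rw [mem_insert]
        push Not
        exact ⟨hxv.symm, fun h => hvR (mem_of_mem_erase h)⟩
    · intro t ht
      rw [mem_insert, mem_insert] at ht
      rcases ht with rfl | rfl | ht
      · exact hQ'c r hrQ' _ (hBQ' hB.1) (fun h => hvR (h ▸ hrR))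
      · exact hQ'c r hrQ' _ (hBQ' hxB) (fun h => hxR (h ▸ hrR))
      · exact hh.clq r hrR t (mem_of_mem_erase ht) (mem_erase.1 ht).1.symm

end Pool.Agent.N423.DE
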