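import Mathlib
import Pool.Agent.N423.DE.LemC

/-!
# Bases and degree counts
-/

set_option autoImplicit false
set_option linter.unusedSectionVars false

namespace Pool.Agent.N423.DE

open Matrix Finset Pool.Agent.H283R2.DR Pool.Agent.H789R5

variable {V : Type} [Fintype V] {d : ℕ}

/-! ### A combinatorial lemma -/

omit [Fintype V] in
theorem combi [DecidableEq V] {G : SimpleGraph V} {N : Finset V} {z y : Fin 3 → V}
    (hzz : ∀ i j, i ≠ j → G.Adj (z i) (z j)) (hzN : ∀ i, z i ∈ N)
    (hyN : ∀ i, y i ∈ N)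
    (hc : ∀ i, Cq G ((N.erase (z i)).erase (y i))) : ∃ x ∈ N, Cq G (N.erase x) := by
  by_contra hno
  push Not at hno
  have h1 : ∀ i, ∃ u ∈ N, u ≠ y i ∧ u ≠ z i ∧ ¬ G.Adj (z i) u := by
    intro i
    have h2 := hno (y i) (hyN i)
    unfold Cq at h2
    push Not at h2
    obtain ⟨a, ha, b, hb, hab, hadj⟩ := h2
    rw [mem_erase] at ha hb
    by_cases haz : a = z i
    · subst haz
      exact ⟨b, hb.2, hb.1, hab.symm, hadj⟩
    · by_cases hbz : b = z i
      · subst hbz
        exact ⟨a, ha.2, ha.1, hab, fun h => hadj h.symm⟩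
      · exact absurd (hc i a (mem_erase.2 ⟨ha.1, mem_erase.2 ⟨haz, ha.2⟩⟩) b
          (mem_erase.2 ⟨hb.1, mem_erase.2 ⟨hbz, hb.2⟩⟩) hab) hadj
  choose u huN huy huz hu using h1
  have h2 : ∀ i j, i ≠ j → y j = u i := by
    have h3 : ∀ i j, i ≠ j → z i = y j ∨ u i = y j := by
      intro i j hij
      by_contra hcon
      push Not at hcon
      have hzij : z i ≠ z j := (hzz i j hij).ne
      have huj : u i ≠ z j := by
        intro h
        apply hu i
        rw [h]
        exact hzz i j hij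
      exact hu i (hc j (z i) (mem_erase.2 ⟨hcon.1, mem_erase.2 ⟨hzij, hzN i⟩⟩) (u i)
        (mem_erase.2 ⟨hcon.2, mem_erase.2 ⟨huj, huN i⟩⟩) (huz i).symm)
    intro i j hij
    rcases h3 i j hij with h | h
    · exfalso
      have h5 : ∀ i j : Fin 3, i ≠ j → ∃ l : Fin 3, l ≠ i ∧ l ≠ j := by decide
      obtain ⟨l, hli, hlj⟩ := h5 i j hij
      rcases h3 l j hlj with h4 | h4
      · exact (hzz l i hli).ne (h4.trans h.symm)
      · apply hu l
        rw [h4, ← h]
        exact hzz l i hli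
    · exact h.symm
  have e1 := h2 1 0 (by decide)
  have e2 := h2 1 2 (by decide)
  have e3 := h2 0 2 (by decide)
  apply huy 0
  rw [← e3, e2, e1]

/-! ### Bases -/

theorem exists_basis (p : V → Fin d → ℝ) {S G : SimpleGraph V} (hSG : S ≤ G)
    (hS : mo S p + S.edgeSet.ncard ≤ d * Fintype.card V) :
    ∃ B : SimpleGraph V, S ≤ B ∧ B ≤ G ∧ mo B p + B.edgeSet.ncard = d * Fintype.card V ∧
      mo B p = mo G p := by
  classical
  obtain ⟨B, hB, hmax⟩ := Set.Finite.exists_maximal
    (s := {F : SimpleGraph V | S ≤ F ∧ F ≤ G ∧ mo F p + F.edgeSet.ncard ≤ d * Fintype.card V})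
    (Set.toFinite _) ⟨S, le_refl _, hSG, hS⟩
  obtain ⟨h1, h2, h3⟩ := hB
  refine ⟨B, h1, h2, le_antisymm h3 (mo_lower B p), ?_⟩
  apply le_antisymm _ (mo_anti h2 p)
  apply mo_le_of_imp
  intro x y hxy
  by_contra himp
  have hne : x ≠ y := hxy.ne
  have hnadj : ¬ B.Adj x y := fun h => himp (imp_of_adj h)
  have h4 := mo_lt_of_not_imp hne himp
  have h5 : (B ⊔ SimpleGraph.edge x y).edgeSet.ncard ≤ B.edgeSet.ncard + 1 := by
    rw [SimpleGraph.edgeSet_sup, SimpleGraph.edgeSet_edge_of_ne hne]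
    refine (Set.ncard_union_le _ _).trans ?_
    rw [Set.ncard_singleton]
  have h6 : B ⊔ SimpleGraph.edge x y ≤ B := by
    refine hmax ⟨h1.trans le_sup_left, ?_, by omega⟩ le_sup_left
    refine sup_le h2 ?_
    intro a b hab
    rw [SimpleGraph.edge_adj] at hab
    rcases hab.1 with ⟨rfl, rfl⟩ | ⟨rfl, rfl⟩
    · exact hxy
    · exact hxy.symm
  exact hnadj (h6 (Or.inr (by rw [SimpleGraph.edge_adj]; exact ⟨Or.inl ⟨rfl, rfl⟩, hne⟩)))

/-- graphs whose edges all meet a small set are independent -/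
theorem indep_small {p : V → Fin d → ℝ} (hp : MG p) [DecidableEq V] {R : Finset V}
    (hR : R.card ≤ d) : ∀ (n : ℕ) (U : Finset V), U.card = n → ∀ F : SimpleGraph V,
      (∀ a b, F.Adj a b → a ∈ U) → (∀ a b, F.Adj a b → a ∈ R ∨ b ∈ R) →
      mo F p + F.edgeSet.ncard ≤ d * Fintype.card V := by
  intro n
  induction n with
  | zero =>
    intro U hU F hF _
    have hFb : F = ⊥ := by
      ext a b
      simp only [SimpleGraph.bot_adj, iff_false]
      intro hab
      have := hF a b hab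
      rw [card_eq_zero.1 hU] at this
      simp at this
    subst hFb
    have := mo_le (⊥ : SimpleGraph V) p
    simpa using this
  | succ n ih =>
    intro U hU F hF hFR
    have hne : U.Nonempty := by
      rw [← card_pos, hU]; omega
    obtain ⟨v, hvU, hv⟩ : ∃ v ∈ U, nb F v ⊆ R := by
      by_cases h : ∃ v ∈ U, v ∉ R
      · obtain ⟨v, hv, hvR⟩ := h
        exact ⟨v, hv, fun z hz => (hFR v z (mem_nb.1 hz)).resolve_left hvR⟩
      · push Not at h
        obtain ⟨v, hv⟩ := hne
        exact ⟨v, hv, fun z hz => h z (hF z v (mem_nb.1 hz).symm)⟩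
    have h1 := ih (U.erase v) (by rw [card_erase_of_mem hvU, hU]; rfl)
      (F.deleteIncidenceSet v) (fun a b hab => by
        rw [SimpleGraph.deleteIncidenceSet_adj] at hab
        exact mem_erase.2 ⟨hab.2.1, hF a b hab.1⟩)
      (fun a b hab => hFR a b (F.deleteIncidenceSet_le v hab))
    have h2 := ext0 hp F v (nb F v) ((card_le_card hv).trans hR) (fun z hz => mem_nb.1 hz)
    have h3 := card_del F v
    omega

/-- the complete graph on `U` -/
def cmp (U : Finset V) : SimpleGraph V where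
  Adj a b := a ≠ b ∧ a ∈ U ∧ b ∈ U
  symm := ⟨fun _ _ h => ⟨h.1.symm, h.2.2, h.2.1⟩⟩
  loopless := ⟨fun _ h => h.1 rfl⟩

theorem cmp_del [DecidableEq V] (U : Finset V) (v : V) :
    (cmp U).deleteIncidenceSet v = cmp (U.erase v) := by
  ext a b
  rw [SimpleGraph.deleteIncidenceSet_adj]
  constructor
  · rintro ⟨⟨h1, h2, h3⟩, h4, h5⟩
    exact ⟨h1, mem_erase.2 ⟨h4, h2⟩, mem_erase.2 ⟨h5, h3⟩⟩
  · rintro ⟨h1, h2, h3⟩
    rw [mem_erase] at h2 h3
    exact ⟨⟨h1, h2.2, h3.2⟩, h2.1, h3.1⟩

theorem nb_cmp [DecidableEq V] {U : Finset V} {v : V} (hv : v ∈ U) : nb (cmp U) v = U.erase v := by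
  ext z
  rw [mem_nb, mem_erase]
  constructor
  · rintro ⟨h1, h2, h3⟩
    exact ⟨h1.symm, h3⟩
  · rintro ⟨h1, h2⟩
    exact ⟨h1.symm, hv, h2⟩

theorem card_cmp [DecidableEq V] (n : ℕ) : ∀ U : Finset V, U.card = n →
    2 * (cmp U).edgeSet.ncard + n = n * n := by
  induction n with
  | zero =>
    intro U hU
    have hFb : cmp U = ⊥ := by
      ext a b
      simp only [SimpleGraph.bot_adj, iff_false]
      rintro ⟨-, h, -⟩
      rw [card_eq_zero.1 hU] at h
      simp at h
    rw [hFb]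
    simp
  | succ n ih =>
    intro U hU
    obtain ⟨v, hv⟩ : U.Nonempty := by rw [← card_pos, hU]; omega
    have h1 := ih (U.erase v) (by rw [card_erase_of_mem hv, hU]; rfl)
    have h2 := card_del (cmp U) v
    rw [cmp_del, nb_cmp hv, card_erase_of_mem hv, hU] at h2
    simp only [Nat.add_sub_cancel] at h2
    nlinarith

theorem mo_cmp {p : V → Fin d → ℝ} (hp : MG p) [DecidableEq V] (n : ℕ) : ∀ U : Finset V,
    U.card = d + n → d * Fintype.card V + d * (d + 1) / 2 ≤ mo (cmp U) p + d * U.card := by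
  induction n with
  | zero =>
    intro U hU
    have h1 := mo_lower (cmp U) p
    have h2 := card_cmp d U hU
    have h3 : d * (d + 1) / 2 * 2 = d * (d + 1) :=
      Nat.div_mul_cancel (Nat.even_mul_succ_self d).two_dvd
    rw [hU, add_zero]
    nlinarith
  | succ n ih =>
    intro U hU
    obtain ⟨v, hv⟩ : U.Nonempty := by rw [← card_pos, hU]; omega
    have h1 := ih (U.erase v) (by rw [card_erase_of_mem hv, hU]; rfl)
    have h2 := gain_clique hp (G := cmp U) (v := v) (by
      intro a ha b hb hab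
      rw [nb_cmp hv] at ha hb
      exact ⟨hab, mem_of_mem_erase ha, mem_of_mem_erase hb⟩)
    rw [cmp_del] at h2
    rw [card_erase_of_mem hv] at h1
    have h3 : d * U.card = d * (U.card - 1) + d := by
      have : U.card = (U.card - 1) + 1 := by omega
      conv_lhs => rw [this, Nat.mul_add, Nat.mul_one]
    omega

/-- a closed graph on `U` which is not complete has more motions than the complete graph -/
theorem mo_not_cmp {p : V → Fin d → ℝ} (hp : MG p) [DecidableEq V] {G : SimpleGraph V}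
    (hG : Closed G p) {U : Finset V} (hU : d ≤ U.card) (hs : ∀ a b, G.Adj a b → a ∈ U)
    (hn : ∃ a ∈ U, ∃ b ∈ U, a ≠ b ∧ ¬ G.Adj a b) :
    d * Fintype.card V + d * (d + 1) / 2 + 1 ≤ mo G p + d * U.card := by
  obtain ⟨n, hn'⟩ := Nat.exists_eq_add_of_le hU
  have h1 := mo_cmp hp n U hn'
  have hle : G ≤ cmp U := fun a b h => ⟨h.ne, hs a b h, hs b a h.symm⟩
  have h2 : mo (cmp U) p < mo G p := by
    by_contra hc
    push Not at hc
    obtain ⟨a, ha, b, hb, hab, hadj⟩ := hn
    exact hadj (hG a b hab (imp_of_mo_le hle hc (show (cmp U).Adj a b from ⟨hab, ha, hb⟩)))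
  omega

/-! ### Degree counts -/

theorem handshake (B : SimpleGraph V) : ∑ v, (nb B v).card = 2 * B.edgeSet.ncard := by
  classical
  have h1 := B.sum_degrees_eq_twice_card_edges
  have h2 : ∀ v, (nb B v).card = B.degree v := by
    intro v
    rw [← SimpleGraph.card_neighborFinset_eq_degree]
    congr 1
    ext z
    rw [mem_nb, SimpleGraph.mem_neighborFinset]
  have h3 : B.edgeSet.ncard = #B.edgeFinset := by
    rw [← SimpleGraph.coe_edgeFinset, Set.ncard_coe_finset]
  rw [h3, ← h1]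
  exact sum_congr rfl fun v _ => h2 v

/-- the sum of the degrees outside the hub -/
theorem degree_sum [DecidableEq V] {B : SimpleGraph V} {R U : Finset V} (hRU : R ⊆ U)
    (hR : Cq B R)
    (hdom : ∀ v ∈ U, v ∉ R → ∃ S ⊆ R, R.card ≤ S.card + 1 ∧ ∀ r ∈ S, B.Adj v r) :
    ∑ v ∈ U \ R, (nb B v).card + R.card * (R.card - 1) + (U.card - R.card) * (R.card - 1) ≤
      2 * B.edgeSet.ncard := by
  rw [← handshake]
  have h1 : ∑ v ∈ U \ R, (nb B v).card + ∑ v ∈ R, (nb B v).card ≤ ∑ v, (nb B v).card := by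
    rw [sum_sdiff hRU]
    exact sum_le_sum_of_subset (subset_univ U)
  have h2 : ∑ r ∈ R, ((nb B r ∩ R).card + (nb B r ∩ (U \ R)).card) ≤ ∑ v ∈ R, (nb B v).card := by
    apply sum_le_sum
    intro r _
    rw [← card_union_of_disjoint]
    · exact card_le_card (union_subset inter_subset_left inter_subset_left)
    · rw [disjoint_left]
      intro a ha hb
      rw [mem_inter] at ha hb
      exact (mem_sdiff.1 hb.2).2 ha.2
  rw [sum_add_distrib] at h2
  have h3 : R.card * (R.card - 1) ≤ ∑ r ∈ R, (nb B r ∩ R).card := by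
    rw [← smul_eq_mul]
    refine card_nsmul_le_sum _ _ _ ?_
    intro r hr
    rw [← card_erase_of_mem hr]
    apply card_le_card
    intro a ha
    rw [mem_erase] at ha
    exact mem_inter.2 ⟨mem_nb.2 (hR r hr a ha.2 ha.1.symm), ha.2⟩
  have h4 : ∑ r ∈ R, (nb B r ∩ (U \ R)).card = ∑ v ∈ U \ R, (nb B v ∩ R).card := by
    classical
    have e1 : ∀ (X : Finset V) (r : V), (nb B r ∩ X).card = ∑ v ∈ X, if B.Adj r v then 1 else 0 := by
      intro X r
      rw [← card_filter]
      congr 1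
      ext z
      rw [mem_inter, mem_nb, mem_filter, and_comm]
    simp only [e1]
    rw [sum_comm]
    refine sum_congr rfl fun a _ => sum_congr rfl fun b _ => ?_
    simp only [B.adj_comm a b]
  have h5 : (U.card - R.card) * (R.card - 1) ≤ ∑ v ∈ U \ R, (nb B v ∩ R).card := by
    rw [← card_sdiff_of_subset hRU, ← smul_eq_mul]
    refine card_nsmul_le_sum _ _ _ ?_
    intro v hv
    rw [mem_sdiff] at hv
    obtain ⟨S, hS, hSc, hSa⟩ := hdom v hv.1 hv.2
    have h6 : S ⊆ nb B v ∩ R := fun r hr => mem_inter.2 ⟨mem_nb.2 (hSa r hr), hS hr⟩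
    have := card_le_card h6
    omega
  omega

end Pool.Agent.N423.DE
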