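import Mathlib
import Pool.Agent.N423.DE.Count

/-!
# The main induction
-/

set_option autoImplicit false
set_option linter.unusedSectionVars false

namespace Pool.Agent.N423.DE

open Matrix Finset Pool.Agent.H283R2.DR Pool.Agent.H789R5

variable {V : Type} [Fintype V] {d : ℕ}

theorem arith (d s E m n N Z T : ℕ) (hd : 1 ≤ d)
    (h1 : s + (d - 1) * (d - 1 - 1) + N * (d - 1 - 1) ≤ 2 * E)
    (h2 : m + E = d * n) (h3 : d * n + T + 1 ≤ m + d * (N + (d - 1))) (hT : 2 * T = d * (d + 1))
    (h4 : (d + 2) * N ≤ s + Z) : 4 ≤ Z := by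
  obtain rfl | ⟨e, rfl⟩ : d = 1 ∨ ∃ e, d = e + 2 := by
    rcases Nat.lt_or_ge d 2 with h | h
    · left; omega
    · right; exact ⟨d - 2, by omega⟩
  · simp at h1 h2 h3 hT
    omega
  · have e1 : e + 2 - 1 = e + 1 := by omega
    have e2 : e + 1 - 1 = e := by omega
    rw [e1, e2] at h1
    rw [e1] at h3
    nlinarith

theorem main_aux {p : V → Fin d → ℝ} (hp : MG p) (hd : 1 ≤ d) [DecidableEq V] {R : Finset V} :
    ∀ (n : ℕ) (U : Finset V), U.card = n → ∀ G : SimpleGraph V, Closed G p → Hub d G R U →
      HasSeq G p := by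
  intro n
  induction n with
  | zero =>
    intro U hU G _ hh
    have h1 := indep_small hp (R := R) (by have := hh.card; omega) 0 U hU G hh.supp
      (fun a b hab => by
        have := hh.supp a b hab
        rw [card_eq_zero.1 hU] at this
        simp at this)
    exact ⟨[], trivial, by simp, by simpa using h1⟩
  | succ n ih =>
    intro U hU G hG hh
    by_cases hUR : U ⊆ R
    · have h1 := indep_small hp (R := R) (by have := hh.card; omega) (n + 1) U hU G hh.supp
        (fun a b hab => Or.inl (hUR (hh.supp a b hab)))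
      exact ⟨[], trivial, by simp, by simpa using h1⟩
    have ih' : ∀ w ∈ U \ R, HasSeq (G.deleteIncidenceSet w) p := by
      intro w hw
      rw [mem_sdiff] at hw
      exact ih (U.erase w) (by rw [card_erase_of_mem hw.1, hU]; rfl) _ (closed_del hp hd hG w)
        (hh.del hw.2)
    by_contra hno
    have hA : ∀ v ∈ U \ R, d + 1 ≤ (nb G v).card := by
      intro v hv
      by_contra hc
      apply hno
      refine step (ih' v hv) (empty_subset _) (fun a ha => by simp at ha) ?_
      have := ext0 hp G v (nb G v) (by omega) (fun z hz => mem_nb.1 hz)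
      omega
    have hB : ∀ v ∈ U \ R, mo G p + (d + 1) ≤ mo (G.deleteIncidenceSet v) p := by
      intro v hv
      by_contra hc
      apply hno
      have h1 := hA v hv
      have h2 := caseB hp hd hG h1 (by omega)
      refine step (ih' v hv) (Subset.refl _) h2 ?_
      obtain ⟨T, hT, hTc⟩ := exists_subset_card_eq (s := nb G v) (n := d) (by omega)
      have := ext0 hp G v T hTc.le (fun z hz => mem_nb.1 (hT hz))
      omega
    have hC : ∀ v ∈ U \ R, mo (G.deleteIncidenceSet v) p ≤ mo G p + (d + 1) →
        d + 2 ≤ (nb G v).card := by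
      intro v hv hmo
      by_contra hc
      apply hno
      refine step (ih' v hv) (empty_subset _) (fun a ha => by simp at ha) ?_
      have := hA v hv
      have := hB v hv
      omega
    have hD : ∀ v ∈ U \ R, mo (G.deleteIncidenceSet v) p ≤ mo G p + (d + 1) →
        ∀ y ∈ nb G v, ¬ Cq G ((nb G v).erase y) := by
      intro v hv hmo y hy hcl
      apply hno
      refine step (ih' v hv) (erase_subset _ _) hcl ?_
      have := hC v hv hmo
      have := hB v hv
      rw [card_erase_of_mem hy]
      omega
    obtain ⟨v0, hv0U, hv0R⟩ := not_subset.1 hUR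
    have hv0 : v0 ∈ U \ R := mem_sdiff.2 ⟨hv0U, hv0R⟩
    have hcardR := hh.card
    have hUd : d ≤ U.card := by
      have h1 : insert v0 R ⊆ U := by
        intro a ha
        rcases mem_insert.1 ha with rfl | ha
        · exact hv0U
        · exact hh.sub ha
      have := card_le_card h1
      rw [card_insert_of_notMem hv0R] at this
      omega
    have hnc : ∃ a ∈ U, ∃ b ∈ U, a ≠ b ∧ ¬ G.Adj a b := by
      by_contra hc
      push Not at hc
      have h1 : Cq G (nb G v0) := fun a ha b hb hab =>
        hc a (hh.supp' (mem_nb.1 ha)) b (hh.supp' (mem_nb.1 hb)) hab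
      have h2 := gain_clique hp h1
      have h3 := hB v0 hv0
      omega
    have hmo := mo_not_cmp hp hG hUd hh.supp hnc
    -- the basis
    let S : SimpleGraph V :=
      { Adj := fun a b => G.Adj a b ∧ (a ∈ R ∨ b ∈ R)
        symm := ⟨fun _ _ h => ⟨h.1.symm, h.2.symm⟩⟩
        loopless := ⟨fun _ h => h.1.ne rfl⟩ }
    have hSG : S ≤ G := fun _ _ h => h.1
    have hSind := indep_small hp (R := R) (by omega) U.card U rfl S
      (fun a b h => hh.supp a b h.1) (fun a b h => h.2)
    obtain ⟨B, hSB, hBG, hBc, hBm⟩ := exists_basis p hSG hSind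
    have hBR : Cq B R := fun a ha b hb hab => hSB ⟨hh.clq a ha b hb hab, Or.inl ha⟩
    have hds := degree_sum (B := B) hh.sub hBR (by
      intro v hv hvR
      obtain ⟨S', h1, h2, h3⟩ := hh.dom v hv hvR
      exact ⟨S', h1, by omega, fun r hr => hSB ⟨h3 r hr, Or.inr (h1 hr)⟩⟩)
    have hdeg : ∀ v ∈ U \ R, d + 1 ≤ (nb B v).card := by
      intro v hv
      have h1 := hB v hv
      have h2 := mo_anti (del_mono hBG v) p
      have h3 := mo_del_le B p v
      omega
    set Z := (U \ R).filter (fun v => (nb B v).card = d + 1) with hZ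
    have hZ4 : 4 ≤ Z.card := by
      have h4 : (d + 2) * (U \ R).card ≤ ∑ v ∈ U \ R, (nb B v).card + Z.card := by
        rw [hZ, card_filter, ← sum_add_distrib, mul_comm, ← smul_eq_mul]
        refine card_nsmul_le_sum _ _ _ ?_
        intro v hv
        have := hdeg v hv
        split_ifs <;> omega
      have hT : 2 * (d * (d + 1) / 2) = d * (d + 1) :=
        Nat.mul_div_cancel' (Nat.even_mul_succ_self d).two_dvd
      have hR1 : R.card = d - 1 := by omega
      have hU1 : U.card = (U \ R).card + (d - 1) := by
        rw [card_sdiff_of_subset hh.sub]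
        omega
      have hU2 : U.card - R.card = (U \ R).card := (card_sdiff_of_subset hh.sub).symm
      rw [hU2, hR1] at hds
      rw [hU1] at hmo
      exact arith d _ _ _ _ _ _ _ hd hds (by rw [← hBm]; exact hBc) hmo hT h4
    -- the vertices of degree `d + 1` of the basis
    have hZmem : ∀ v ∈ Z, v ∈ U \ R ∧ (nb B v).card = d + 1 := fun v hv => by
      rw [hZ, mem_filter] at hv
      exact hv
    have hZmo : ∀ v ∈ Z, mo (G.deleteIncidenceSet v) p ≤ mo G p + (d + 1) ∧
        mo (B.deleteIncidenceSet v) p ≤ mo G p + (d + 1) := by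
      intro v hv
      have h1 := (hZmem v hv).2
      have h2 := mo_anti (del_mono hBG v) p
      have h3 := mo_del_le B p v
      omega
    have hP : ∀ v ∈ Z, ∀ w ∈ Z, v ≠ w → G.Adj v w ∧ ¬ B.Adj v w ∧
        mo (G.deleteIncidenceSet w) p + (d + 1) =
          mo ((G.deleteIncidenceSet w).deleteIncidenceSet v) p := by
      intro v hv w hw hvw
      obtain ⟨hvUR, hvB⟩ := hZmem v hv
      obtain ⟨hwUR, hwB⟩ := hZmem w hw
      have hvd := hC v hvUR (hZmo v hv).1
      have hvD := hD v hvUR (hZmo v hv).1
      have hwmo := hB w hwUR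
      have hwmo2 := (hZmo w hw)
      have hnbG := nb_del G v w hvw
      have hnbB := nb_del B v w hvw
      set Gw := G.deleteIncidenceSet w with hGw
      have hGwc : Closed Gw p := closed_del hp hd hG w
      have h1 := mo_anti (del_mono (del_mono hBG w) v) p
      rw [← hGw] at h1
      have h2 := mo_del_le (B.deleteIncidenceSet w) p v
      have hnbw : (nb G v).card ≤ (nb Gw v).card + 1 := by
        rw [hnbG]
        have := pred_card_le_card_erase (s := nb G v) (a := w)
        omega
      have h3 : mo Gw p + (d + 1) ≤ mo (Gw.deleteIncidenceSet v) p := by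
        by_contra hc
        have h4 := caseB hp hd hGwc (v := v) (by omega) (by omega)
        rw [hnbG] at h4
        have h5 : Cq G ((nb G v).erase w) := h4.mono (G.deleteIncidenceSet_le w)
        by_cases hwn : w ∈ nb G v
        · exact hvD w hwn h5
        · obtain ⟨y, hy⟩ : (nb G v).Nonempty := card_pos.1 (by omega)
          rw [erase_eq_of_notMem hwn] at h5
          exact hvD y hy (h5.subset (erase_subset _ _))
      have h4 : ¬ B.Adj v w := by
        intro h
        rw [hnbB, card_erase_of_mem (mem_nb.2 h), hvB] at h2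
        omega
      have h5 : (nb (B.deleteIncidenceSet w) v).card ≤ d + 1 := by
        rw [hnbB, ← hvB]
        exact card_le_card (erase_subset _ _)
      have h6 : mo Gw p + (d + 1) = mo (Gw.deleteIncidenceSet v) p := by omega
      refine ⟨?_, h4, h6⟩
      by_contra hadj
      have hwn : w ∉ nb G v := fun h => hadj (mem_nb.1 h)
      have hwR := (mem_sdiff.1 hwUR).2
      obtain ⟨y, hy, hyc⟩ := lemC hp hd hGwc (hh.del hwR) (ih' w hwUR) (v := v) (w := w)
        (mem_sdiff.1 hvUR).2 (by simp) hvw (by rw [hnbG, erase_eq_of_notMem hwn]; exact hvd) h6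
      rw [hnbG, erase_eq_of_notMem hwn] at hy hyc
      exact hvD y hy (hyc.mono (G.deleteIncidenceSet_le w))
    obtain ⟨v, hv⟩ : Z.Nonempty := card_pos.1 (by omega)
    have h3 : 2 < (Z.erase v).card := by
      rw [card_erase_of_mem hv]; omega
    obtain ⟨a, ha, b, hb, c, hc, hab, hac, hbc⟩ := two_lt_card.1 h3
    rw [mem_erase] at ha hb hc
    let z : Fin 3 → V := ![a, b, c]
    have hzZ : ∀ i, z i ∈ Z := by
      intro i; fin_cases i
      · exact ha.2
      · exact hb.2
      · exact hc.2
    have hzv : ∀ i, v ≠ z i := by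
      intro i; fin_cases i
      · exact ha.1.symm
      · exact hb.1.symm
      · exact hc.1.symm
    have hzinj : ∀ i j, i ≠ j → z i ≠ z j := by
      intro i j hij
      fin_cases i <;> fin_cases j <;>
        first
        | exact (hij rfl).elim
        | exact hab
        | exact hac
        | exact hbc
        | exact hab.symm
        | exact hac.symm
        | exact hbc.symm
    obtain ⟨hvUR, hvB⟩ := hZmem v hv
    have hcard : d + 4 ≤ (nb G v).card := by
      have h1 : nb B v ∪ {a, b, c} ⊆ nb G v := by
        intro x hx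
        rw [mem_union] at hx
        rcases hx with hx | hx
        · exact mem_nb.2 (hBG (mem_nb.1 hx))
        · rw [mem_insert, mem_insert, mem_singleton] at hx
          rcases hx with rfl | rfl | rfl
          · exact mem_nb.2 (hP v hv _ (hzZ 0) (hzv 0)).1
          · exact mem_nb.2 (hP v hv _ (hzZ 1) (hzv 1)).1
          · exact mem_nb.2 (hP v hv _ (hzZ 2) (hzv 2)).1
      have h2 := card_le_card h1
      rw [card_union_of_disjoint, hvB, card_eq_three.2 ⟨a, b, c, hab, hac, hbc, rfl⟩] at h2
      · omega
      · rw [disjoint_left]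
        intro x hx hx'
        rw [mem_insert, mem_insert, mem_singleton] at hx'
        have hx := mem_nb.1 hx
        rcases hx' with rfl | rfl | rfl
        · exact (hP v hv _ (hzZ 0) (hzv 0)).2.1 hx
        · exact (hP v hv _ (hzZ 1) (hzv 1)).2.1 hx
        · exact (hP v hv _ (hzZ 2) (hzv 2)).2.1 hx
    have hex : ∀ i, ∃ y ∈ nb G v, Cq G (((nb G v).erase (z i)).erase y) := by
      intro i
      obtain ⟨hzUR, -⟩ := hZmem _ (hzZ i)
      have hnbG := nb_del G v (z i) (hzv i)
      obtain ⟨y, hy, hyc⟩ := lemC hp hd (closed_del hp hd hG (z i)) (hh.del (mem_sdiff.1 hzUR).2)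
        (ih' _ hzUR) (v := v) (w := z i) (mem_sdiff.1 hvUR).2 (by simp) (hzv i) (by
          rw [hnbG]
          have := pred_card_le_card_erase (s := nb G v) (a := z i)
          omega) (hP v hv _ (hzZ i) (hzv i)).2.2
      rw [hnbG] at hy hyc
      exact ⟨y, mem_of_mem_erase hy, hyc.mono (G.deleteIncidenceSet_le _)⟩
    choose y hy hyc using hex
    obtain ⟨x, hx, hxc⟩ := combi (G := G) (N := nb G v) (z := z) (y := y)
      (fun i j hij => (hP _ (hzZ i) _ (hzZ j) (hzinj i j hij)).1)
      (fun i => mem_nb.2 (hP v hv _ (hzZ i) (hzv i)).1) hy hyc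
    exact hD v hvUR (hZmo v hv).1 x hx hxc

end Pool.Agent.N423.DE
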