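import Mathlib
import Pool.Agent.N423.DE.Main

/-!
# The rank formula and maximality
-/

set_option autoImplicit false
set_option linter.unusedSectionVars false

namespace Pool.Agent.N423.DE

open Matrix Finset Pool.Agent.H283R2.DR Pool.Agent.H789R5

variable {V : Type} [Fintype V] {d : ℕ}

/-- The pair `u, v` is linked in `G` in `ℝ^d`: the edge `uv` does not increase the rank of `G` in
the generic `d`-dimensional rigidity matroid. (All adjacent pairs are linked.) -/
def Linked (d : ℕ) (G : SimpleGraph V) (u v : V) : Prop :=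
  genRank d (G ⊔ SimpleGraph.edge u v) = genRank d G

theorem imp_of_linked {p : V → Fin d → ℝ} (hp : MG p) {G : SimpleGraph V} {u v : V} (huv : u ≠ v)
    (h : Linked d G u v) : Imp G p u v := by
  have h1 := genRank_add hp G
  have h2 := genRank_add hp (G ⊔ SimpleGraph.edge u v)
  unfold Linked at h
  apply imp_of_mo_le (G' := G ⊔ SimpleGraph.edge u v) le_sup_left (by omega)
  exact Or.inr (by rw [SimpleGraph.edge_adj]; exact ⟨Or.inl ⟨rfl, rfl⟩, huv⟩)

theorem lower_hub {p : V → Fin d → ℝ} (hp : MG p) {G : SimpleGraph V} {R : Finset V}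
    (hR : R.card + 1 = d) (hlink : ∀ a ∈ R, ∀ b ∈ R, a ≠ b → Linked d G a b)
    (hdom : ∀ v, v ∉ R → ∃ S ⊆ R, d ≤ S.card + 2 ∧ ∀ r ∈ S, Linked d G v r) :
    ∃ L : List (Finset V), Proper (d + 2) L ∧
      mo G p + (cover G L).edgeSet.ncard = d * Fintype.card V + L.length := by
  classical
  have hh : Hub d (cl G p) R univ := by
    refine ⟨hR, subset_univ R, fun _ _ _ => mem_univ _, ?_, ?_⟩
    · intro a ha b hb hab
      exact ⟨hab, imp_of_linked hp hab (hlink a ha b hb hab)⟩
    · intro v _ hv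
      obtain ⟨S, hS, hSc, hSl⟩ := hdom v hv
      refine ⟨S, hS, hSc, fun r hr => ?_⟩
      have hne : v ≠ r := fun h => hv (h ▸ hS hr)
      exact ⟨hne, imp_of_linked hp hne (hSl r hr)⟩
  obtain ⟨L, hL, hLc, hLl⟩ := main_aux hp (by omega) _ univ rfl (cl G p) (closed_cl G p) hh
  refine ⟨L, hL, le_antisymm ?_ ?_⟩
  · have h1 : cover G L ≤ cl G p := by
      rintro x y ⟨hne, h | ⟨A, hA, hx, hy⟩⟩
      · exact le_cl G p h
      · exact hLc A hA x hx y hy hne
    have h2 := Set.ncard_le_ncard (SimpleGraph.edgeSet_subset_edgeSet.2 h1) (Set.toFinite _)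
    rw [mo_cl] at hLl
    omega
  · have := upper hp G hL
    omega

/-! ### Maximality -/

/-- the pairs of elements of `A` -/
def pairs (A : Finset V) : Set (Sym2 V) := {e | ¬ e.IsDiag ∧ ∀ x ∈ e, x ∈ A}

theorem matroid_bound [DecidableEq V] {m : ℕ} {M : Matroid (Sym2 V)}
    (hM : ∀ A : Finset V, A.card = m → M.IsCircuit (pairs A)) : ∀ L : List (Finset V),
    Proper m L → M.eRk (cover ⊥ L).edgeSet + L.length ≤ ((cover ⊥ L).edgeSet.ncard : ℕ∞) := by
  intro L
  induction L with
  | nil =>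
    intro _
    rw [cover_nil]
    simp
  | cons A L ih =>
    rintro ⟨hL, hA, x, hx, y, hy, hxy, hnew⟩
    have ih' := ih hL
    set K := (cover (⊥ : SimpleGraph V) (A :: L)).edgeSet with hK
    set K' := (cover (⊥ : SimpleGraph V) L).edgeSet with hK'
    have hAK : pairs A ⊆ K := by
      intro e he
      induction e using Sym2.ind with
      | _ a b =>
        obtain ⟨h1, h2⟩ := he
        rw [Sym2.mk_isDiag_iff] at h1
        exact ⟨h1, Or.inr ⟨A, by simp, h2 a (by simp), h2 b (by simp)⟩⟩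
    have hxyA : s(x, y) ∈ pairs A := by
      refine ⟨by rw [Sym2.mk_isDiag_iff]; exact hxy, ?_⟩
      intro z hz
      rw [Sym2.mem_iff] at hz
      rcases hz with rfl | rfl
      · exact hx
      · exact hy
    have hKK : K' ⊆ K \ {s(x, y)} := by
      intro e he
      induction e using Sym2.ind with
      | _ a b =>
        obtain ⟨h1, h2 | ⟨B, hB, ha, hb⟩⟩ := (show (cover (⊥ : SimpleGraph V) L).Adj a b from he)
        · exact absurd h2 (by simp)
        · refine ⟨⟨h1, Or.inr ⟨B, List.mem_cons_of_mem _ hB, ha, hb⟩⟩, ?_⟩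
          rw [Set.mem_singleton_iff, Sym2.eq_iff]
          rintro (⟨rfl, rfl⟩ | ⟨rfl, rfl⟩)
          · exact hnew B hB ⟨ha, hb⟩
          · exact hnew B hB ⟨hb, ha⟩
    have h1 : M.eRk K ≤ M.eRk (K \ {s(x, y)}) := by
      have h2 : s(x, y) ∈ M.closure (K \ {s(x, y)}) := by
        refine M.closure_subset_closure (Set.sdiff_subset_sdiff_left hAK) ?_
        exact (hM A hA).mem_closure_sdiff_singleton_of_mem hxyA
      have h3 : K ⊆ insert s(x, y) (K \ {s(x, y)}) := by
        intro e he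
        by_cases h : e = s(x, y)
        · exact Or.inl h
        · exact Or.inr ⟨he, h⟩
      refine (M.eRk_mono h3).trans ?_
      rw [← M.eRk_closure_eq (insert _ _), Matroid.closure_insert_eq_of_mem_closure h2,
        M.eRk_closure_eq]
    have h2 : M.eRk (K \ {s(x, y)}) ≤ M.eRk K' + (((K \ {s(x, y)}) \ K').ncard : ℕ∞) := by
      have h3 : K \ {s(x, y)} ⊆ K' ∪ ((K \ {s(x, y)}) \ K') := by
        intro e he
        by_cases h : e ∈ K'
        · exact Or.inl h
        · exact Or.inr ⟨he, h⟩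
      refine (M.eRk_mono h3).trans ((M.eRk_union_le_eRk_add_encard _ _).trans ?_)
      rw [Set.Finite.cast_ncard_eq (Set.toFinite _)]
    have h3 : ((K \ {s(x, y)}) \ K').ncard + K'.ncard = (K \ {s(x, y)}).ncard :=
      Set.ncard_sdiff_add_ncard_of_subset hKK (Set.toFinite _)
    have h4 : (K \ {s(x, y)}).ncard + 1 = K.ncard :=
      Set.ncard_sdiff_singleton_add_one (hAK hxyA) (Set.toFinite _)
    rw [List.length_cons]
    calc M.eRk K + ((L.length + 1 : ℕ) : ℕ∞)
        ≤ (M.eRk K' + (((K \ {s(x, y)}) \ K').ncard : ℕ∞)) + ((L.length + 1 : ℕ) : ℕ∞) := by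
          gcongr
          exact h1.trans h2
      _ = (M.eRk K' + L.length) + ((((K \ {s(x, y)}) \ K').ncard + 1 : ℕ) : ℕ∞) := by
          push_cast
          ring
      _ ≤ (K'.ncard : ℕ∞) + ((((K \ {s(x, y)}) \ K').ncard + 1 : ℕ) : ℕ∞) := by gcongr
      _ = ((K'.ncard + (((K \ {s(x, y)}) \ K').ncard + 1) : ℕ) : ℕ∞) := by push_cast; rfl
      _ = (K.ncard : ℕ∞) := by
          congr 1
          omega

theorem matroid_le [DecidableEq V] {m : ℕ} {M : Matroid (Sym2 V)}
    (hM : ∀ A : Finset V, A.card = m → M.IsCircuit (pairs A)) (G : SimpleGraph V)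
    {L : List (Finset V)} (hL : Proper m L) {k : ℕ}
    (hk : k + L.length = (cover G L).edgeSet.ncard) : M.eRk G.edgeSet ≤ k := by
  have h1 := matroid_bound hM L hL
  have hle : (cover ⊥ L).edgeSet ⊆ (cover G L).edgeSet := by
    apply SimpleGraph.edgeSet_subset_edgeSet.2
    rintro a b ⟨hne, h⟩
    exact ⟨hne, h.imp (fun h => absurd h (by simp)) id⟩
  have hle2 : G.edgeSet ⊆ (cover G L).edgeSet :=
    SimpleGraph.edgeSet_subset_edgeSet.2 fun a b h => ⟨h.ne, Or.inl h⟩
  have h3 : ((cover G L).edgeSet \ (cover ⊥ L).edgeSet).ncard + (cover ⊥ L).edgeSet.ncard =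
      (cover G L).edgeSet.ncard := Set.ncard_sdiff_add_ncard_of_subset hle (Set.toFinite _)
  have h4 : M.eRk G.edgeSet ≤ M.eRk (cover ⊥ L).edgeSet +
      (((cover G L).edgeSet \ (cover ⊥ L).edgeSet).ncard : ℕ∞) := by
    have h5 : G.edgeSet ⊆ (cover ⊥ L).edgeSet ∪ ((cover G L).edgeSet \ (cover ⊥ L).edgeSet) := by
      intro e he
      by_cases h : e ∈ (cover ⊥ L).edgeSet
      · exact Or.inl h
      · exact Or.inr ⟨hle2 he, h⟩
    refine (M.eRk_mono h5).trans ((M.eRk_union_le_eRk_add_encard _ _).trans ?_)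
    rw [Set.Finite.cast_ncard_eq (Set.toFinite _)]
  have h6 : M.eRk G.edgeSet + L.length ≤ ((k + L.length : ℕ) : ℕ∞) := by
    rw [hk, ← h3]
    calc M.eRk G.edgeSet + L.length ≤ (M.eRk (cover ⊥ L).edgeSet +
          (((cover G L).edgeSet \ (cover ⊥ L).edgeSet).ncard : ℕ∞)) + L.length := by gcongr
      _ = (((cover G L).edgeSet \ (cover ⊥ L).edgeSet).ncard : ℕ∞) +
          (M.eRk (cover ⊥ L).edgeSet + L.length) := by ring
      _ ≤ (((cover G L).edgeSet \ (cover ⊥ L).edgeSet).ncard : ℕ∞) +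
          ((cover ⊥ L).edgeSet.ncard : ℕ∞) := by gcongr
      _ = _ := by push_cast; rfl
  rw [Nat.cast_add] at h6
  exact (ENat.add_le_add_iff_right (ENat.natCast_ne_top _)).1 h6

end Pool.Agent.N423.DE
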